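import Pool.Agent.Q85.CR.Weak

/-!
Normalised cut-off functions on balls.
-/

set_option autoImplicit false

open MeasureTheory Set Filter Topology
open scoped ENNReal NNReal ContDiff

namespace Q85.CR

theorem exists_bump : ∃ N : ℝ, 0 < N ∧ ∀ r : ℝ, 0 < r → ∃ η : E → ℝ, ContDiff ℝ ∞ η ∧
    (∀ x, r ≤ ‖x‖ → η x = 0) ∧ (∫⁻ x, ENNReal.ofReal (η x ^ 2) = 1) ∧
    ∫⁻ x, ENNReal.ofReal (‖fderiv ℝ η x‖ ^ 2) ≤ ENNReal.ofReal (N / r ^ 2) := by
  let f : ContDiffBump (0 : E) := ⟨1 / 2, 1, by norm_num, by norm_num⟩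
  have hfc : ContDiff ℝ ∞ (f : E → ℝ) := f.contDiff
  have hfs : HasCompactSupport (f : E → ℝ) := f.hasCompactSupport
  have hfz : ∀ x : E, 1 ≤ ‖x‖ → f x = 0 := fun x hx => f.zero_of_le_dist (by simpa using hx)
  have hDc : Continuous (fderiv ℝ (f : E → ℝ)) := hfc.continuous_fderiv (by simp)
  have i1 : Integrable fun x : E => f x ^ 2 :=
    Continuous.integrable_of_hasCompactSupport (by fun_prop)
      (hfs.comp_left (g := fun y : ℝ => y ^ 2) (by simp))
  have i2 : Integrable fun x : E => ‖fderiv ℝ (f : E → ℝ) x‖ ^ 2 :=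
    Continuous.integrable_of_hasCompactSupport (by fun_prop)
      ((hfs.fderiv ℝ).comp_left (g := fun y => ‖y‖ ^ 2) (by simp))
  set A : ℝ := ∫ x, f x ^ 2 with hA
  set B : ℝ := ∫ x, ‖fderiv ℝ (f : E → ℝ) x‖ ^ 2 with hB
  have hA0 : 0 < A := by
    rw [hA, integral_pos_iff_support_of_nonneg (fun x => sq_nonneg _) i1]
    refine lt_of_lt_of_le (Metric.measure_ball_pos volume (0 : E) (by norm_num : (0 : ℝ) < 1 / 2))
      (measure_mono fun x hx => ?_)
    have : f x = 1 := f.one_of_mem_closedBall (Metric.ball_subset_closedBall hx)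
    simp [this]
  have hB0 : 0 ≤ B := integral_nonneg fun x => sq_nonneg _
  refine ⟨B / A + 1, by positivity, fun r hr => ?_⟩
  set s : ℝ := Real.sqrt (A * r ^ 3) with hs
  have hs2 : s ^ 2 = A * r ^ 3 := Real.sq_sqrt (by positivity)
  have hs0 : 0 < s := Real.sqrt_pos.2 (by positivity)
  have hfin : Module.finrank ℝ E = 3 := by simp
  have hcomp : ∀ h : E → ℝ, ∫ x, h (r⁻¹ • x) = r ^ 3 * ∫ x, h x := by
    intro h
    rw [Measure.integral_comp_inv_smul, hfin, abs_of_pos (by positivity), smul_eq_mul]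
  refine ⟨fun x => s⁻¹ * f (r⁻¹ • x), ?_, ?_, ?_, ?_⟩
  · exact contDiff_const.mul (hfc.comp (contDiff_const_smul _))
  · intro x hx
    simp only
    rw [hfz, mul_zero]
    rw [norm_smul, norm_inv, Real.norm_of_nonneg hr.le, ← div_eq_inv_mul, one_le_div hr]
    exact hx
  · have hint : ∫ x, (s⁻¹ * f (r⁻¹ • x)) ^ 2 = 1 := by
      simp_rw [mul_pow]
      rw [integral_const_mul, hcomp fun x => f x ^ 2, inv_pow, hs2, ← hA]
      field_simp
    have hi : Integrable fun x : E => (s⁻¹ * f (r⁻¹ • x)) ^ 2 := by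
      by_contra hcon
      rw [integral_undef hcon] at hint
      norm_num at hint
    rw [← ofReal_integral_eq_lintegral_ofReal hi (Eventually.of_forall fun x => sq_nonneg _),
      hint, ENNReal.ofReal_one]
  · have hder : ∀ x, fderiv ℝ (fun x : E => s⁻¹ * f (r⁻¹ • x)) x
        = (s⁻¹ * r⁻¹) • fderiv ℝ (f : E → ℝ) (r⁻¹ • x) := by
      intro x
      have h1 := (hfc.differentiable (by simp) (r⁻¹ • x)).hasFDerivAt
      have h2 : HasFDerivAt (fun x : E => r⁻¹ • x) (r⁻¹ • ContinuousLinearMap.id ℝ E) x :=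
        (hasFDerivAt_id x).const_smul r⁻¹
      have h3 := (h1.comp x h2).const_mul s⁻¹
      have h4 : fderiv ℝ (fun x : E => s⁻¹ * f (r⁻¹ • x)) x = _ := h3.fderiv
      rw [h4]
      ext v
      simp
      ring
    have hnorm : ∀ x, ‖fderiv ℝ (fun x : E => s⁻¹ * f (r⁻¹ • x)) x‖ ^ 2
        = (s⁻¹ * r⁻¹) ^ 2 * ‖fderiv ℝ (f : E → ℝ) (r⁻¹ • x)‖ ^ 2 := by
      intro x
      rw [hder x, norm_smul, mul_pow, Real.norm_of_nonneg (by positivity)]
    simp_rw [hnorm]
    have hi : Integrable fun x : E =>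
        (s⁻¹ * r⁻¹) ^ 2 * ‖fderiv ℝ (f : E → ℝ) (r⁻¹ • x)‖ ^ 2 := by
      refine Integrable.const_mul ?_ _
      have := i2.comp_smul (R := r⁻¹) (by positivity)
      exact this
    rw [← ofReal_integral_eq_lintegral_ofReal hi (Eventually.of_forall fun x => by positivity)]
    refine ENNReal.ofReal_le_ofReal ?_
    rw [integral_const_mul, hcomp fun x => ‖fderiv ℝ (f : E → ℝ) x‖ ^ 2, ← hB, mul_pow, inv_pow,
      hs2]
    have : (A * r ^ 3)⁻¹ * r⁻¹ ^ 2 * (r ^ 3 * B) = B / A / r ^ 2 := by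
      field_simp
    rw [this]
    gcongr
    linarith

end Q85.CR
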