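import Pool.Agent.TH340.FF.Form5
import Pool.Agent.Q85.CR.Bump

/-!
Localisation of `∫ W·(φ·∇)φ` by averaging over all balls of a fixed radius.
-/

set_option autoImplicit false

open MeasureTheory Set Filter Topology
open scoped ENNReal NNReal ContDiff InnerProductSpace

namespace Q85.CR

open H772R2.NS Pool.Agent.TH340.FF

variable {Ω : Set E3} {φ : E3 → E3}

/-- a divergence free field is orthogonal to gradients -/
theorem div_test (h : H772R2.NS.IsTest Ω φ) {g : E3 → ℝ} (hg : ContDiff ℝ 1 g)
    (hgc : HasCompactSupport g) : ∫ x, ∑ j, φ x j * fderiv ℝ g x (ev j) = 0 := by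
  have hdg : ∀ j, Continuous fun x => fderiv ℝ g x (ev j) := fun j =>
    (hg.continuous_fderiv (by norm_num)).clm_apply continuous_const
  have hdgc : ∀ j, HasCompactSupport fun x => fderiv ℝ g x (ev j) := fun j =>
    (hgc.fderiv (𝕜 := ℝ)).comp_left (g := fun L : E3 →L[ℝ] ℝ => L (ev j)) (by simp)
  have i1 : ∀ j, Integrable fun x => φ x j * fderiv ℝ g x (ev j) := fun j =>
    ((contDiff_coord h.smooth j).continuous.mul (hdg j)).integrable_of_hasCompactSupport
      (hdgc j).mul_left
  have i2 : ∀ j, Integrable fun x => jac φ x (j, j) * g x := fun j =>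
    ((cont_jac_coord h.smooth j j).mul hg.continuous).integrable_of_hasCompactSupport
      hgc.mul_left
  rw [integral_finsetSum _ fun j _ => i1 j]
  simp_rw [ibp_prod h.smooth hg hgc]
  rw [Finset.sum_neg_distrib, ← integral_finsetSum _ fun j _ => i2 j, neg_eq_zero]
  refine integral_eq_zero_of_ae (Eventually.of_forall fun x => ?_)
  simp only [Pi.zero_apply]
  rw [← Finset.sum_mul, h.divfree x, zero_mul]

/-- the localised field `∑ⱼ φⱼ ∂ⱼ(η² φᵢ)` for `η` centred at `y` -/
noncomputable def lf (η : E3 → ℝ) (φ : E3 → E3) (y x : E3) : E3 :=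
  WithLp.toLp 2 fun i => η (x - y) ^ 2 * f1 φ x i
    + (∑ j, φ x j * (2 * η (x - y) * fderiv ℝ η (x - y) (ev j))) * φ x i

theorem cont_lf {η : E3 → ℝ} (hη : ContDiff ℝ ∞ η) (h : ContDiff ℝ ∞ φ) :
    Continuous fun p : E3 × E3 => lf η φ p.1 p.2 := by
  have h1 : Continuous η := hη.continuous
  have h2 : ∀ j, Continuous fun x => fderiv ℝ η x (ev j) := fun j =>
    (hη.continuous_fderiv (by simp)).clm_apply continuous_const
  have h3 : Continuous (f1 φ) := f1_cont h
  refine (PiLp.continuous_toLp 2 _).comp (continuous_pi fun i => ?_)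
  have h4 : Continuous fun x => f1 φ x i := (EuclideanSpace.proj i).continuous.comp h3
  have h5 : ∀ j, Continuous fun x => φ x j := fun j => (contDiff_coord h j).continuous
  have hs : Continuous fun p : E3 × E3 => p.2 - p.1 := by fun_prop
  have := h1.comp hs
  refine ((((h1.comp hs).pow 2).mul (h4.comp continuous_snd))).add
    ((continuous_finsetSum _ fun j _ => ((h5 j).comp continuous_snd).mul
      ((continuous_const.mul (h1.comp hs)).mul ((h2 j).comp hs))).mul ((h5 i).comp continuous_snd))

theorem lf_zero {η : E3 → ℝ} {y x : E3} (h : φ x = 0) : lf η φ y x = 0 := by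
  refine PiLp.ext fun i => ?_
  simp [lf, f1, h]

theorem lf_zero' {η : E3 → ℝ} {y x : E3} (h : η (x - y) = 0) : lf η φ y x = 0 := by
  refine PiLp.ext fun i => ?_
  simp [lf, h]

/-- constants do not contribute -/
theorem lf_const (h : H772R2.NS.IsTest Ω φ) {η : E3 → ℝ} (hη : ContDiff ℝ ∞ η) (a y : E3) :
    ∫ x, ∑ i, a i * lf η φ y x i = 0 := by
  have hsm := h.smooth
  set g : E3 → ℝ := fun x => η (x - y) ^ 2 * ∑ i, a i * φ x i with hg
  have hηy : ContDiff ℝ ∞ fun x => η (x - y) := hη.comp (by fun_prop)
  have hs : ContDiff ℝ ∞ fun x => ∑ i, a i * φ x i :=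
    ContDiff.sum fun i _ => contDiff_const.mul (contDiff_coord hsm i)
  have hg1 : ContDiff ℝ 1 g := (((hηy.pow 2).mul hs)).of_le (by exact_mod_cast le_top)
  have hg2 : HasCompactSupport g := by
    have : HasCompactSupport fun x => ∑ i, a i * φ x i := by
      refine h.compact.mono fun x hx h0 => hx ?_
      simp [h0]
    exact this.mul_left
  rw [← div_test h hg1 hg2]
  refine integral_congr_ae (Eventually.of_forall fun x => ?_)
  simp only
  have hd : ∀ j, fderiv ℝ g x (ev j) = 2 * η (x - y) * fderiv ℝ η (x - y) (ev j)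
      * (∑ i, a i * φ x i) + η (x - y) ^ 2 * ∑ i, a i * jac φ x (i, j) := by
    intro j
    have d1 : HasFDerivAt (fun x => η (x - y)) (fderiv ℝ η (x - y)) x := by
      have h0 := ((hη.differentiable (by simp) (x - y)).hasFDerivAt).comp x
        ((hasFDerivAt_id x).sub_const y)
      rw [ContinuousLinearMap.comp_id] at h0
      exact h0
    have d2 : ∀ i, HasFDerivAt (fun x => φ x i) (fderiv ℝ (fun x => φ x i) x) x := fun i =>
      ((contDiff_coord hsm i).differentiable (by simp) x).hasFDerivAt
    have d3 : HasFDerivAt (fun x => ∑ i, a i * φ x i) (∑ i, a i • fderiv ℝ (fun x => φ x i) x) x :=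
      HasFDerivAt.fun_sum fun i _ => (d2 i).const_mul (a i)
    have d4 := (d1.pow 2).mul d3
    have d5 : fderiv ℝ g x = _ := d4.fderiv
    rw [d5]
    simp only [add_apply, smul_apply, smul_eq_mul,
      sum_apply]
    simp_rw [jac_eq_coord hsm]
    simp
    ring
  simp_rw [hd]
  simp only [lf, f1, PiLp.toLp_apply]
  simp only [mul_add, Finset.sum_add_distrib, Finset.mul_sum, Finset.sum_mul]
  rw [add_comm]
  congr 1
  · rw [Finset.sum_comm]
    refine Finset.sum_congr rfl fun j _ => Finset.sum_congr rfl fun i _ => ?_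
    ring
  · rw [Finset.sum_comm]
    refine Finset.sum_congr rfl fun j _ => Finset.sum_congr rfl fun i _ => ?_
    ring

theorem conv_swap {k : E3 → ℝ} (hk : Continuous k) (hkc : HasCompactSupport k) {C : E3 → ℝ}
    (hC : Integrable C) :
    Integrable (fun p : E3 × E3 => k (p.2 - p.1) * C p.2) (volume.prod volume) ∧
    ∫ y, ∫ x, k (x - y) * C x = (∫ x, k x) * ∫ x, C x := by
  have hki : Integrable k := hk.integrable_of_hasCompactSupport hkc
  have h1 : Integrable (fun p : E3 × E3 => k (p.2 - p.1) * C p.2) (volume.prod volume) := by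
    have h2 := (hC.convolution_integrand (ContinuousLinearMap.mul ℝ ℝ) hki.comp_neg)
    refine h2.congr (Eventually.of_forall fun p => ?_)
    simp [mul_comm]
  refine ⟨h1, ?_⟩
  have h3 := integral_integral_swap (f := fun y x => k (x - y) * C x) h1
  rw [h3, ← integral_const_mul]
  refine integral_congr_ae (Eventually.of_forall fun x => ?_)
  simp only
  rw [integral_mul_const, integral_sub_left_eq_self k volume x]

theorem int_mul_deriv {η : E3 → ℝ} (hη : ContDiff ℝ ∞ η) (hηc : HasCompactSupport η) (j : Fin 3) :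
    ∫ x, 2 * η x * fderiv ℝ η x (ev j) = 0 := by
  have hdg : Continuous fun x => fderiv ℝ η x (ev j) :=
    (hη.continuous_fderiv (by simp)).clm_apply continuous_const
  have i1 : Integrable fun x => η x * fderiv ℝ η x (ev j) :=
    (hη.continuous.mul hdg).integrable_of_hasCompactSupport hηc.mul_right
  have i2 : Integrable fun x => fderiv ℝ η x (ev j) * η x :=
    (hdg.mul hη.continuous).integrable_of_hasCompactSupport hηc.mul_left
  have i3 : Integrable fun x => η x * η x :=
    (hη.continuous.mul hη.continuous).integrable_of_hasCompactSupport hηc.mul_left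
  have h1 := integral_mul_fderiv_eq_neg_fderiv_mul_of_integrable (μ := (volume : Measure E3))
    (f := η) (g := η) (v := ev j) i2 i1 i3 (fun x _ => (hη.differentiable (by simp)) x)
    (fun x _ => (hη.differentiable (by simp)) x)
  have h2 : ∫ x, fderiv ℝ η x (ev j) * η x = ∫ x, η x * fderiv ℝ η x (ev j) := by
    simp_rw [mul_comm]
  rw [h2] at h1
  have h3 : ∫ x, η x * fderiv ℝ η x (ev j) = 0 := by linarith
  simp_rw [mul_assoc]
  rw [integral_const_mul, h3, mul_zero]

/-- averaging over all centres -/
theorem avg_identity (h : H772R2.NS.IsTest Ω φ) {η : E3 → ℝ} (hη : ContDiff ℝ ∞ η)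
    (hηc : HasCompactSupport η) (hη1 : ∫ x, η x ^ 2 = 1) {W : E3 → E3} (hW : Integrable W) :
    ∫ y, ∫ x, ∑ i, W x i * lf η φ y x i = ∫ x, ∑ i, W x i * f1 φ x i := by
  have hsm := h.smooth
  set A : E3 → ℝ := fun x => ∑ i, W x i * f1 φ x i with hA
  set B : E3 → ℝ := fun x => ∑ i, W x i * φ x i with hB
  have hAi : Integrable A := by
    refine integrable_finsetSum _ fun i _ => int_W hW ?_ ?_ i
    · exact (EuclideanSpace.proj i).continuous.comp (f1_cont hsm)
    · exact (f1_comp h.compact).comp_left (g := fun y : E3 => y i) (by simp)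
  have hBi : ∀ j, Integrable fun x => φ x j * B x := by
    intro j
    have : (fun x => φ x j * B x) = fun x => ∑ i, W x i * (φ x i * φ x j) := by
      funext x
      simp only [hB, Finset.mul_sum]
      exact Finset.sum_congr rfl fun i _ => by ring
    rw [this]
    refine integrable_finsetSum _ fun i _ => int_W hW ?_ ?_ i
    · exact (contDiff_coord hsm i).continuous.mul (contDiff_coord hsm j).continuous
    · exact (hasCompactSupport_coord h.compact i).mul_right
  have c0 : Continuous fun x => η x ^ 2 := hη.continuous.pow 2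
  have c0' : HasCompactSupport fun x => η x ^ 2 :=
    hηc.comp_left (g := fun y : ℝ => y ^ 2) (by simp)
  have c1 : ∀ j, Continuous fun x => 2 * η x * fderiv ℝ η x (ev j) := fun j =>
    (continuous_const.mul hη.continuous).mul
      ((hη.continuous_fderiv (by simp)).clm_apply continuous_const)
  have c1' : ∀ j, HasCompactSupport fun x => 2 * η x * fderiv ℝ η x (ev j) := fun j =>
    (hηc.mul_left (f := fun _ => (2 : ℝ))).mul_right
  obtain ⟨k1, k2⟩ := conv_swap c0 c0' hAi
  have k3 := fun j => conv_swap (c1 j) (c1' j) (hBi j)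
  have e1 : ∀ y x, ∑ i, W x i * lf η φ y x i = η (x - y) ^ 2 * A x
      + ∑ j, 2 * η (x - y) * fderiv ℝ η (x - y) (ev j) * (φ x j * B x) := by
    intro y x
    simp only [lf, PiLp.toLp_apply, hA, hB, Finset.mul_sum, Finset.sum_mul, mul_add,
      Finset.sum_add_distrib]
    congr 1
    · exact Finset.sum_congr rfl fun i _ => by ring
    · rw [Finset.sum_comm]
      exact Finset.sum_congr rfl fun i _ => Finset.sum_congr rfl fun j _ => by ring
  have hsw := integral_integral_swap (f := fun y x => ∑ i, W x i * lf η φ y x i) (by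
    simp_rw [Function.uncurry_def, e1]
    exact k1.add (integrable_finsetSum _ fun j _ => (k3 j).1))
  rw [hsw]
  refine integral_congr_ae ?_
  refine Eventually.of_forall fun x => ?_
  simp only
  simp_rw [e1]
  have j1 : Integrable fun y => η (x - y) ^ 2 :=
    (c0.integrable_of_hasCompactSupport c0').comp_sub_left x
  have j2 : ∀ j, Integrable fun y => 2 * η (x - y) * fderiv ℝ η (x - y) (ev j) := fun j =>
    ((c1 j).integrable_of_hasCompactSupport (c1' j)).comp_sub_left x
  rw [integral_add (j1.mul_const _) (integrable_finsetSum _ fun j _ => (j2 j).mul_const _),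
    integral_mul_const, integral_sub_left_eq_self (fun x => η x ^ 2) volume x, hη1, one_mul,
    integral_finsetSum _ fun j _ => (j2 j).mul_const _]
  have : ∀ j, ∫ y, 2 * η (x - y) * fderiv ℝ η (x - y) (ev j) * (φ x j * B x) = 0 := by
    intro j
    rw [integral_mul_const,
      integral_sub_left_eq_self (fun x => 2 * η x * fderiv ℝ η x (ev j)) volume x,
      int_mul_deriv hη hηc j, zero_mul]
  simp_rw [this]
  simp [hA]

end Q85.CR
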