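import Pool.Agent.Q85.CR.Avg

/-!
Pointwise estimates and the local multiplier inequality.
-/

set_option autoImplicit false

open MeasureTheory Set Filter Topology
open scoped ENNReal NNReal ContDiff InnerProductSpace

namespace Q85.CR

open H772R2.NS Pool.Agent.TH340.FF

variable {Ω : Set E3} {φ : E3 → E3}

theorem sum_ev (v : E3) : ∑ j, v j • (ev j : E3) = v := by
  refine PiLp.ext fun i => ?_
  fin_cases i <;> simp [ev, Fin.sum_univ_three]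

theorem apply_sum (D : E3 →L[ℝ] ℝ) (v : E3) : ∑ j, v j * D (ev j) = D v := by
  conv_rhs => rw [← sum_ev v]
  simp

theorem lf_eq {η : E3 → ℝ} (y x : E3) : lf η φ y x
    = (η (x - y)) ^ 2 • f1 φ x + (2 * η (x - y) * fderiv ℝ η (x - y) (φ x)) • φ x := by
  have h1 : ∑ j, φ x j * (2 * η (x - y) * fderiv ℝ η (x - y) (ev j))
      = 2 * η (x - y) * fderiv ℝ η (x - y) (φ x) := by
    rw [← apply_sum (fderiv ℝ η (x - y)) (φ x), Finset.mul_sum]
    exact Finset.sum_congr rfl fun j _ => by ring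
  refine PiLp.ext fun i => ?_
  simp only [lf, PiLp.toLp_apply, h1, PiLp.add_apply, PiLp.smul_apply, smul_eq_mul]

theorem norm_sq_E3 (v : E3) : ‖v‖ ^ 2 = ∑ i, v i ^ 2 := by
  rw [EuclideanSpace.norm_sq_eq]
  simp

theorem norm_sq_M3 (A : M3) : ‖A‖ ^ 2 = ∑ i, ∑ j, A (i, j) ^ 2 := by
  rw [EuclideanSpace.norm_sq_eq, Fintype.sum_prod_type]
  simp

theorem norm_f1 (x : E3) : ‖f1 φ x‖ ≤ ‖φ x‖ * ‖jac φ x‖ := by
  have h0 : 0 ≤ ‖φ x‖ * ‖jac φ x‖ := by positivity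
  refine le_of_pow_le_pow_left₀ (n := 2) two_ne_zero h0 ?_
  rw [mul_pow, norm_sq_E3, norm_sq_E3, norm_sq_M3, Finset.mul_sum]
  refine Finset.sum_le_sum fun i _ => ?_
  show (∑ j, φ x j * jac φ x (i, j)) ^ 2 ≤ (∑ j, φ x j ^ 2) * ∑ j, jac φ x (i, j) ^ 2
  exact Finset.sum_mul_sq_le_sq_mul_sq _ _ _

theorem norm_lf {η : E3 → ℝ} (y x : E3) : ‖lf η φ y x‖
    ≤ |η (x - y)| * ‖φ x‖ * (|η (x - y)| * ‖jac φ x‖ + 2 * ‖fderiv ℝ η (x - y)‖ * ‖φ x‖) := by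
  rw [lf_eq]
  refine (norm_add_le _ _).trans ?_
  rw [norm_smul, norm_smul, norm_pow, Real.norm_eq_abs, norm_mul, norm_mul, Real.norm_eq_abs,
    Real.norm_eq_abs, abs_two]
  have h1 := norm_f1 (φ := φ) x
  have h2 := (fderiv ℝ η (x - y)).le_opNorm (φ x)
  calc |η (x - y)| ^ 2 * ‖f1 φ x‖ + 2 * |η (x - y)| * ‖fderiv ℝ η (x - y) (φ x)‖ * ‖φ x‖
      ≤ |η (x - y)| ^ 2 * (‖φ x‖ * ‖jac φ x‖)
        + 2 * |η (x - y)| * (‖fderiv ℝ η (x - y)‖ * ‖φ x‖) * ‖φ x‖ := by gcongr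
    _ = _ := by ring

/-- `‖D φᵢ‖² ≤ ∑ⱼ (∂ⱼ φᵢ)²` -/
theorem norm_fderiv_coord (h : ContDiff ℝ ∞ φ) (i : Fin 3) (x : E3) :
    ‖fderiv ℝ (fun x => φ x i) x‖ ^ 2 ≤ ∑ j, jac φ x (i, j) ^ 2 := by
  have h1 : ‖fderiv ℝ (fun x => φ x i) x‖ ≤ Real.sqrt (∑ j, jac φ x (i, j) ^ 2) := by
    refine ContinuousLinearMap.opNorm_le_bound _ (Real.sqrt_nonneg _) fun v => ?_
    rw [← apply_sum]
    simp_rw [← jac_eq_coord h]
    rw [Real.norm_eq_abs, ← Real.sqrt_sq (norm_nonneg v), ← Real.sqrt_mul (by positivity)]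
    refine Real.abs_le_sqrt ?_
    rw [norm_sq_E3, mul_comm]
    exact Finset.sum_mul_sq_le_sq_mul_sq _ _ _
  calc ‖fderiv ℝ (fun x => φ x i) x‖ ^ 2 ≤ Real.sqrt (∑ j, jac φ x (i, j) ^ 2) ^ 2 := by gcongr
    _ = _ := Real.sq_sqrt (Finset.sum_nonneg fun j _ => sq_nonneg _)

theorem measurable_jac (h : ContDiff ℝ ∞ φ) : Continuous fun x => ‖jac φ x‖ ^ 2 := by
  simp_rw [norm_sq_M3]
  exact continuous_finsetSum _ fun i _ => continuous_finsetSum _ fun j _ =>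
    (cont_jac_coord h i j).pow 2

theorem enorm_sq_eq {F : Type*} [NormedAddCommGroup F] (x : F) :
    ‖x‖ₑ ^ 2 = ENNReal.ofReal (‖x‖ ^ 2) := by
  rw [ENNReal.ofReal_pow (norm_nonneg _), ofReal_norm]

theorem two_mul_ofReal (a : ℝ) : 2 * ENNReal.ofReal a = ENNReal.ofReal (2 * a) := by
  rw [ENNReal.ofReal_mul (by norm_num)]
  simp

/-- **local multiplier inequality** -/
theorem local_mult : ∃ C : ℝ, 0 < C ∧ ∀ (g : E3 → ℝ), Measurable g → (∀ x, 0 ≤ g x) →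
    ∀ κ : ℝ, 0 < κ →
    (∀ l : ℝ, 0 < l → volume {x | l < g x} ≤ ENNReal.ofReal ((κ / l) ^ 3)) →
    ∀ (Ω : Set E3) (φ : E3 → E3), H772R2.NS.IsTest Ω φ → ∀ η : E3 → ℝ, ContDiff ℝ ∞ η → ∀ y : E3,
    ∫⁻ x, ENNReal.ofReal (g x ^ 2) * (ENNReal.ofReal (η (x - y) ^ 2) * ENNReal.ofReal (‖φ x‖ ^ 2))
      ≤ ENNReal.ofReal (C * κ ^ 2) *
        ((∫⁻ x, ENNReal.ofReal (η (x - y) ^ 2) * ENNReal.ofReal (‖jac φ x‖ ^ 2))
          + ∫⁻ x, ENNReal.ofReal (‖fderiv ℝ η (x - y)‖ ^ 2) * ENNReal.ofReal (‖φ x‖ ^ 2)) := by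
  obtain ⟨C, hC, hC2⟩ := weak_mult
  refine ⟨C * 2, by positivity, fun g hg hg0 κ hκ hw Ω φ h η hη y => ?_⟩
  have hsm := h.smooth
  have hηy : ContDiff ℝ ∞ fun x => η (x - y) := hη.comp (by fun_prop)
  have hηc : Continuous η := hη.continuous
  have hφi : ∀ i, Continuous fun x => φ x i := fun i => (contDiff_coord hsm i).continuous
  have hφc : Continuous φ := hsm.continuous
  have hDη : Continuous (fderiv ℝ η) := hη.continuous_fderiv (by simp)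
  have hJ := measurable_jac hsm
  have key : ∀ i, ∫⁻ x, ENNReal.ofReal (g x ^ 2) * ‖η (x - y) * φ x i‖ₑ ^ 2
      ≤ ENNReal.ofReal (C * κ ^ 2) * ∫⁻ x, ENNReal.ofReal
        (2 * (η (x - y) ^ 2 * ∑ j, jac φ x (i, j) ^ 2)
          + 2 * (‖fderiv ℝ η (x - y)‖ ^ 2 * φ x i ^ 2)) := by
    intro i
    have h1 := hC2 g hg hg0 κ hκ hw (fun x => η (x - y) * φ x i)
      (hηy.mul (contDiff_coord hsm i)) (hasCompactSupport_coord h.compact i).mul_left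
    refine h1.trans ?_
    gcongr with x
    rw [enorm_sq_eq]
    refine ENNReal.ofReal_le_ofReal ?_
    have d1 : HasFDerivAt (fun x => η (x - y)) (fderiv ℝ η (x - y)) x := by
      have h0 := ((hη.differentiable (by simp) (x - y)).hasFDerivAt).comp x
        ((hasFDerivAt_id x).sub_const y)
      rw [ContinuousLinearMap.comp_id] at h0
      exact h0
    have d2 : HasFDerivAt (fun x => φ x i) (fderiv ℝ (fun x => φ x i) x) x :=
      ((contDiff_coord hsm i).differentiable (by simp) x).hasFDerivAt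
    have d3 : fderiv ℝ (fun x => η (x - y) * φ x i) x = _ := (d1.mul d2).fderiv
    rw [d3]
    have h2 : ‖η (x - y) • fderiv ℝ (fun x => φ x i) x + φ x i • fderiv ℝ η (x - y)‖
        ≤ |η (x - y)| * ‖fderiv ℝ (fun x => φ x i) x‖ + |φ x i| * ‖fderiv ℝ η (x - y)‖ := by
      refine (norm_add_le _ _).trans (le_of_eq ?_)
      rw [norm_smul, norm_smul, Real.norm_eq_abs, Real.norm_eq_abs]
    have h3 := norm_fderiv_coord hsm i x
    calc ‖η (x - y) • fderiv ℝ (fun x => φ x i) x + φ x i • fderiv ℝ η (x - y)‖ ^ 2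
        ≤ (|η (x - y)| * ‖fderiv ℝ (fun x => φ x i) x‖ + |φ x i| * ‖fderiv ℝ η (x - y)‖) ^ 2 := by
          gcongr
      _ ≤ 2 * (|η (x - y)| ^ 2 * ‖fderiv ℝ (fun x => φ x i) x‖ ^ 2)
          + 2 * (‖fderiv ℝ η (x - y)‖ ^ 2 * |φ x i| ^ 2) := by
          nlinarith [sq_nonneg (|η (x - y)| * ‖fderiv ℝ (fun x => φ x i) x‖
            - |φ x i| * ‖fderiv ℝ η (x - y)‖)]
      _ ≤ _ := by
          rw [sq_abs, sq_abs]
          gcongr
  have e1 : ∀ x, ENNReal.ofReal (g x ^ 2) * (ENNReal.ofReal (η (x - y) ^ 2)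
      * ENNReal.ofReal (‖φ x‖ ^ 2)) = ∑ i, ENNReal.ofReal (g x ^ 2) * ‖η (x - y) * φ x i‖ₑ ^ 2 := by
    intro x
    rw [← Finset.mul_sum]
    congr 1
    simp_rw [enorm_sq_eq]
    rw [← ENNReal.ofReal_sum_of_nonneg fun i _ => by positivity,
      ← ENNReal.ofReal_mul (by positivity), norm_sq_E3, Finset.mul_sum]
    congr 1
    refine Finset.sum_congr rfl fun i _ => ?_
    rw [Real.norm_eq_abs, sq_abs]
    ring
  simp_rw [e1]
  rw [lintegral_finsetSum _ fun i _ => by fun_prop]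
  refine (Finset.sum_le_sum fun i _ => key i).trans ?_
  rw [← Finset.mul_sum, ← lintegral_finsetSum _ fun i _ => by
    have := fun j => cont_jac_coord hsm i j
    fun_prop]
  have e2 : ∀ x, ∑ i, ENNReal.ofReal (2 * (η (x - y) ^ 2 * ∑ j, jac φ x (i, j) ^ 2)
          + 2 * (‖fderiv ℝ η (x - y)‖ ^ 2 * φ x i ^ 2))
      = 2 * (ENNReal.ofReal (η (x - y) ^ 2) * ENNReal.ofReal (‖jac φ x‖ ^ 2))
        + 2 * (ENNReal.ofReal (‖fderiv ℝ η (x - y)‖ ^ 2) * ENNReal.ofReal (‖φ x‖ ^ 2)) := by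
    intro x
    rw [← ENNReal.ofReal_sum_of_nonneg fun i _ => by positivity, norm_sq_M3, norm_sq_E3,
      ← ENNReal.ofReal_mul (by positivity), ← ENNReal.ofReal_mul (by positivity)]
    rw [two_mul_ofReal, two_mul_ofReal, ← ENNReal.ofReal_add (by positivity) (by positivity)]
    congr 1
    rw [Finset.sum_add_distrib, ← Finset.mul_sum, ← Finset.mul_sum, ← Finset.mul_sum,
      ← Finset.mul_sum]
  simp_rw [e2]
  have m1 : Measurable fun x => ENNReal.ofReal (η (x - y) ^ 2) * ENNReal.ofReal (‖jac φ x‖ ^ 2) :=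
    Measurable.mul (by fun_prop) hJ.measurable.ennreal_ofReal
  rw [lintegral_add_left (m1.const_mul 2), lintegral_const_mul _ m1,
    lintegral_const_mul _ (by fun_prop), ← mul_add, ← mul_assoc]
  have e3 : ENNReal.ofReal (C * 2 * κ ^ 2) = ENNReal.ofReal (C * κ ^ 2) * 2 := by
    rw [show C * 2 * κ ^ 2 = C * κ ^ 2 * 2 by ring, ENNReal.ofReal_mul (by positivity)]
    simp
  rw [e3]

end Q85.CR
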