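import Pool.Agent.W795.ES.PubDef
import Pool.Agent.TH340.FF.PubDef

/-!
Public definitions: fast regions and squeezed regions in a ball.
-/

set_option autoImplicit false

open MeasureTheory Set
open scoped InnerProductSpace

namespace Q85.CR

open H772R2.NS.Pub
open Pool.Agent.TH340.FF (ext0)
open Pool.Agent.W795.ES (outer)

/-- The part of the ball of centre `y` and radius `r` in which the speed relative to the frame
moving with the constant velocity `a` is larger than `l` (`v = 0` outside `Ω`). -/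
def fast {Ω : Set R3} (v : L2 Ω R3) (y : R3) (r : ℝ) (a : R3) (l : ℝ) : Set R3 :=
  {x | ‖x - y‖ < r ∧ l < ‖ext0 v x - a‖}

/-- The part of the ball of centre `y` and radius `r` in `Ω` in which the fluid is compressed in
some direction `e` at a rate larger than `l`: `-e·(e·∇)v > l |e|²`, where `G = ∇v`. -/
def squeezed {Ω : Set R3} (G : L2 Ω Mat) (y : R3) (r l : ℝ) : Set R3 :=
  {x | x ∈ Ω ∧ ‖x - y‖ < r ∧ ∃ e : R3, l * ‖e‖ ^ 2 < -⟪G.fn x, outer e⟫_ℝ}

/-- For some `r > 0` and `m ≥ 0` with `m² / ν + ν / r² ≤ β`, for every ball of radius `r` there is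
a frame in which the region of the ball with speed larger than `l` has at most the volume
`(c ν / l)³`, for all `l ≥ m`. -/
def SlowRegions {Ω : Set R3} (c ν β : ℝ) (v : L2 Ω R3) : Prop :=
  ∃ r m : ℝ, 0 < r ∧ 0 ≤ m ∧ m ^ 2 / ν + ν / r ^ 2 ≤ β ∧ ∀ y : R3, ∃ a : R3, ∀ l : ℝ, 0 < l →
    m ≤ l → (volume : Measure R3) (fast v y r a l) ≤ ENNReal.ofReal ((c * ν / l) ^ 3)

/-- For some `r > 0` and `m ≥ 0` with `m + ν / r² ≤ β`, in every ball of radius `r` the region
with a rate of compression larger than `l` has at most the volume `(c ν / l)^(3/2)`, for all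
`l ≥ m`. -/
def WeakCompression {Ω : Set R3} (c ν β : ℝ) (G : L2 Ω Mat) : Prop :=
  ∃ r m : ℝ, 0 < r ∧ 0 ≤ m ∧ m + ν / r ^ 2 ≤ β ∧ ∀ (y : R3) (l : ℝ), 0 < l → m ≤ l →
    (volume : Measure R3) (squeezed G y r l) ≤ ENNReal.ofReal ((c * ν / l) ^ (3 / 2 : ℝ))

end Q85.CR
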