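import Pool.Agent.Q85.CR.Form
import Pool.Agent.Q85.CR.PubDef
import Pool.Agent.TH340.FF.LH2

/-!
The form inequalities in `H¹_{0,σ}(Ω)`.
-/

set_option autoImplicit false

open MeasureTheory Set Filter Topology
open scoped ENNReal NNReal ContDiff InnerProductSpace

namespace Q85.CR

open H772R2.NS Pool.Agent.TH340.FF

theorem int_norm_jac (φ : E3 → E3) :
    ∫ x, ∑ i, ∑ j, jac φ x (i, j) ^ 2 = ∫ x, ‖jac φ x‖ ^ 2 := by
  simp_rw [norm_sq_M3]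

theorem int_norm_phi (φ : E3 → E3) : ∫ x, ∑ i, φ x i ^ 2 = ∫ x, ‖φ x‖ ^ 2 := by
  simp_rw [norm_sq_E3]

theorem speed_graph : ∃ c K : ℝ, 0 < c ∧ 0 < K ∧ ∀ (c' : ℝ), 0 < c' → c' ≤ c →
    ∀ (Ω : Set E3), IsOpen Ω → Bornology.IsBounded Ω →
    ∀ ν β : ℝ, 0 < ν → ∀ (U : L2V Ω) (G : L2M Ω), (U, G) ∈ graphW Ω →
    (∃ r m : ℝ, 0 < r ∧ 0 ≤ m ∧ m ^ 2 / ν + ν / r ^ 2 ≤ β ∧ ∀ y : E3, ∃ a : E3, ∀ l : ℝ, 0 < l →
      m ≤ l → volume {x | ‖x - y‖ < r ∧ l < ‖ext Ω U x - a‖}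
        ≤ ENNReal.ofReal ((c' * ν / l) ^ 3)) →
    ∀ p ∈ graphW Ω, -⟪tensL p.1, G⟫_ℝ ≤ 1 / 2 * ν * ‖p.2‖ ^ 2 + K * β * ‖p.1‖ ^ 2 := by
  obtain ⟨K, hK0, hK⟩ := form_speed
  refine ⟨Real.sqrt (1 / (32 * K)), 4 + K, Real.sqrt_pos.2 (by positivity), by positivity, ?_⟩
  intro c' hc0 hcc Ω hΩ hb ν β hν U G hU hyp p hp
  obtain ⟨r, m, hr, hm, hβ, hy⟩ := hyp
  have hc2 : c' ^ 2 ≤ 1 / (32 * K) := by
    calc c' ^ 2 ≤ Real.sqrt (1 / (32 * K)) ^ 2 := by gcongr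
      _ = _ := Real.sq_sqrt (by positivity)
  have hKc : K * c' ^ 2 ≤ 1 / 32 := by
    calc K * c' ^ 2 ≤ K * (1 / (32 * K)) := by gcongr
      _ = 1 / 32 := by field_simp
  have hΩm := hΩ.measurableSet
  have key := graphW_le (fun p => -⟪tensL p.1, G⟫_ℝ - 1 / 2 * ν * ‖p.2‖ ^ 2
    - (4 + K) * β * ‖p.1‖ ^ 2) (form_cont hΩm G _ _) (fun q hq => ?_) hp
  · linarith
  have hqW := preW_le hq
  obtain ⟨φ, h1, h2, h3⟩ := hq
  have t1 := int_f1 hΩm h1 hqW h2 hU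
  have hWm : Measurable (ext Ω U) := (Lp.stronglyMeasurable U).measurable.indicator hΩm
  have t2 := hK r m (c' * ν) (ν / 8) hr hm (by positivity) (by positivity) (ext Ω U)
    (ext_integrable hΩm hb U) hWm hy Ω φ h1
  rw [t1, ← int_norm_jac, ← int_norm_phi, ← norm_test1 h1 h2, ← norm_test2 h1 h3] at t2
  have a1 : 2 * (ν / 8) + K * (c' * ν) ^ 2 / (ν / 8) ≤ 1 / 2 * ν := by
    have : K * (c' * ν) ^ 2 / (ν / 8) = 8 * (K * c' ^ 2) * ν := by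
      field_simp
    rw [this]
    nlinarith
  have a2 : m ^ 2 / (2 * (ν / 8)) + K * (ν / 8 + (c' * ν) ^ 2 / (ν / 8)) / r ^ 2
      ≤ (4 + K) * β := by
    have e1 : m ^ 2 / (2 * (ν / 8)) = 4 * (m ^ 2 / ν) := by
      field_simp
      ring
    have e2 : K * (ν / 8 + (c' * ν) ^ 2 / (ν / 8)) / r ^ 2
        = (K / 8 + 8 * (K * c' ^ 2)) * (ν / r ^ 2) := by
      field_simp
    rw [e1, e2]
    have h5 : 0 ≤ m ^ 2 / ν := by positivity
    have h6 : 0 ≤ ν / r ^ 2 := by positivity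
    have h7 : (K / 8 + 8 * (K * c' ^ 2)) * (ν / r ^ 2) ≤ (4 + K) * (ν / r ^ 2) :=
      mul_le_mul_of_nonneg_right (by linarith) h6
    have h8 : 4 * (m ^ 2 / ν) ≤ (4 + K) * (m ^ 2 / ν) :=
      mul_le_mul_of_nonneg_right (by linarith) h5
    have h9 : (4 + K) * (m ^ 2 / ν + ν / r ^ 2) ≤ (4 + K) * β :=
      mul_le_mul_of_nonneg_left hβ (by linarith)
    linarith
  have b1 : (2 * (ν / 8) + K * (c' * ν) ^ 2 / (ν / 8)) * ‖q.2‖ ^ 2 ≤ 1 / 2 * ν * ‖q.2‖ ^ 2 := by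
    gcongr
  have b2 : (m ^ 2 / (2 * (ν / 8)) + K * (ν / 8 + (c' * ν) ^ 2 / (ν / 8)) / r ^ 2) * ‖q.1‖ ^ 2
      ≤ (4 + K) * β * ‖q.1‖ ^ 2 := by gcongr
  linarith

/-- the rate of compression -/
noncomputable def Qf (A : M3) (e : E3) : ℝ := -∑ i, ∑ j, A (i, j) * (e i * e j)

theorem Qf_le (A : M3) (e : E3) : Qf A e ≤ ‖A‖ * ‖e‖ ^ 2 := by
  have h1 : Qf A e = ⟪A, -(WithLp.toLp 2 fun p : Fin 3 × Fin 3 => e p.1 * e p.2 : M3)⟫_ℝ := by
    rw [inner_neg_right, inner_M3]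
    rfl
  have h2 : ‖(WithLp.toLp 2 fun p : Fin 3 × Fin 3 => e p.1 * e p.2 : M3)‖ = ‖e‖ ^ 2 := by
    have : ‖(WithLp.toLp 2 fun p : Fin 3 × Fin 3 => e p.1 * e p.2 : M3)‖ ^ 2 = (‖e‖ ^ 2) ^ 2 := by
      rw [norm_sq_M3, norm_sq_E3, sq (∑ i, e i ^ 2), Finset.sum_mul_sum]
      refine Finset.sum_congr rfl fun i _ => Finset.sum_congr rfl fun j _ => ?_
      ring
    exact (pow_left_inj₀ (norm_nonneg _) (by positivity) two_ne_zero).1 this
  rw [h1, ← h2, ← norm_neg (WithLp.toLp 2 fun p : Fin 3 × Fin 3 => e p.1 * e p.2 : M3)]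
  exact real_inner_le_norm _ _

theorem Qf_cont (A : M3) : Continuous (Qf A) := by
  have h : ∀ i, Continuous fun e : E3 => e i := fun i => (EuclideanSpace.proj i).continuous
  unfold Qf
  exact (continuous_finsetSum _ fun i _ => continuous_finsetSum _ fun j _ =>
    continuous_const.mul ((h i).mul (h j))).neg

/-- the largest rate of compression -/
noncomputable def Vf (A : M3) : ℝ≥0∞ :=
  ⨆ n : ℕ, ENNReal.ofReal (Qf A (TopologicalSpace.denseSeq E3 n)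
    / ‖TopologicalSpace.denseSeq E3 n‖ ^ 2)

theorem Vf_le (A : M3) : Vf A ≤ ENNReal.ofReal ‖A‖ := by
  refine iSup_le fun n => ENNReal.ofReal_le_ofReal ?_
  rcases eq_or_ne (TopologicalSpace.denseSeq E3 n) 0 with h | h
  · rw [h]
    simp
  · have h0 : 0 < ‖TopologicalSpace.denseSeq E3 n‖ := norm_pos_iff.2 h
    rw [div_le_iff₀ (by positivity)]
    exact Qf_le _ _

theorem Vf_ne_top (A : M3) : Vf A ≠ ⊤ := ((Vf_le A).trans_lt ENNReal.ofReal_lt_top).ne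

theorem Qf_le_Vf (A : M3) (e : E3) : Qf A e ≤ (Vf A).toReal * ‖e‖ ^ 2 := by
  have hcl : IsClosed {e : E3 | Qf A e ≤ (Vf A).toReal * ‖e‖ ^ 2} :=
    isClosed_le (Qf_cont A) (by fun_prop)
  have hd := TopologicalSpace.denseRange_denseSeq E3
  refine hd.induction_on (p := fun e : E3 => Qf A e ≤ (Vf A).toReal * ‖e‖ ^ 2) e hcl ?_
  intro n
  rcases eq_or_ne (TopologicalSpace.denseSeq E3 n) 0 with h | h
  · rw [h]
    simp [Qf]
  · have h0 : 0 < ‖TopologicalSpace.denseSeq E3 n‖ := norm_pos_iff.2 h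
    rw [← div_le_iff₀ (by positivity)]
    have h1 : ENNReal.ofReal (Qf A (TopologicalSpace.denseSeq E3 n)
        / ‖TopologicalSpace.denseSeq E3 n‖ ^ 2) ≤ Vf A := le_iSup (fun n : ℕ => ENNReal.ofReal
        (Qf A (TopologicalSpace.denseSeq E3 n) / ‖TopologicalSpace.denseSeq E3 n‖ ^ 2)) n
    exact (ENNReal.ofReal_le_iff_le_toReal (Vf_ne_top A)).1 h1

theorem exists_of_lt_Vf {A : M3} {l : ℝ} (hl : 0 ≤ l) (h : l < (Vf A).toReal) :
    ∃ e : E3, l * ‖e‖ ^ 2 < Qf A e := by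
  have h1 : ENNReal.ofReal l < Vf A := (ENNReal.ofReal_lt_iff_lt_toReal hl (Vf_ne_top A)).2 h
  obtain ⟨n, hn⟩ := lt_iSup_iff.1 h1
  refine ⟨TopologicalSpace.denseSeq E3 n, ?_⟩
  rcases eq_or_ne (TopologicalSpace.denseSeq E3 n) 0 with h2 | h2
  · rw [h2] at hn
    simp at hn
  · have h0 : 0 < ‖TopologicalSpace.denseSeq E3 n‖ := norm_pos_iff.2 h2
    rw [ENNReal.ofReal_lt_ofReal_iff_of_nonneg hl, lt_div_iff₀ (by positivity)] at hn
    exact hn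

theorem measurable_Vf {g : E3 → M3} (hg : Measurable g) : Measurable fun x => Vf (g x) := by
  unfold Vf Qf
  have h : ∀ p, Measurable fun x => g x p := fun p =>
    (EuclideanSpace.proj p).continuous.measurable.comp hg
  refine Measurable.iSup fun n => ?_
  refine Measurable.ennreal_ofReal ?_
  refine Measurable.div_const ?_ _
  exact (Finset.measurable_fun_sum _ fun i _ => Finset.measurable_fun_sum _ fun j _ =>
    (h (i, j)).mul_const _).neg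

theorem rate_graph : ∃ c : ℝ, 0 < c ∧ ∀ (c' : ℝ), 0 < c' → c' ≤ c →
    ∀ (Ω : Set E3), IsOpen Ω →
    ∀ ν β : ℝ, 0 < ν → ∀ (G : L2M Ω),
    (∃ r m : ℝ, 0 < r ∧ 0 ≤ m ∧ m + ν / r ^ 2 ≤ β ∧ ∀ (y : E3) (l : ℝ), 0 < l →
      m ≤ l → volume {x | x ∈ Ω ∧ ‖x - y‖ < r ∧ ∃ e : E3, l * ‖e‖ ^ 2 < Qf (G x) e}
        ≤ ENNReal.ofReal ((c' * ν / l) ^ (3 / 2 : ℝ))) →
    ∀ p ∈ graphW Ω, -⟪tensL p.1, G⟫_ℝ ≤ 1 / 2 * ν * ‖p.2‖ ^ 2 + β * ‖p.1‖ ^ 2 := by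
  obtain ⟨K, hK0, hK⟩ := form_rate
  refine ⟨1 / (2 * K), by positivity, ?_⟩
  intro c' hc0 hcc Ω hΩ ν β hν G hyp p hp
  obtain ⟨r, m, hr, hm, hβ, hy⟩ := hyp
  have hKc : K * c' ≤ 1 / 2 := by
    calc K * c' ≤ K * (1 / (2 * K)) := by gcongr
      _ = 1 / 2 := by field_simp
  have hΩm := hΩ.measurableSet
  have key := graphW_le (fun p => -⟪tensL p.1, G⟫_ℝ - 1 / 2 * ν * ‖p.2‖ ^ 2
    - β * ‖p.1‖ ^ 2) (form_cont hΩm G _ _) (fun q hq => ?_) hp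
  · linarith
  have hqW := preW_le hq
  obtain ⟨φ, h1, h2, h3⟩ := hq
  set V : E3 → ℝ := Ω.indicator fun x => (Vf (G x)).toReal with hV
  have hGm : Measurable (G : E3 → M3) := (Lp.stronglyMeasurable G).measurable
  have hVm : Measurable V := (measurable_Vf hGm).ennreal_toReal.indicator hΩm
  have hV0 : ∀ x, 0 ≤ V x := fun x => indicator_nonneg (fun _ _ => ENNReal.toReal_nonneg) x
  have t2 := hK r m (c' * ν) hr hm (by positivity) V hVm hV0 (fun y l hl hml => by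
    refine (measure_mono fun x hx => ?_).trans (hy y l hl hml)
    obtain ⟨hx1, hx2⟩ := hx
    by_cases hxΩ : x ∈ Ω
    · rw [hV, indicator_of_mem hxΩ] at hx2
      exact ⟨hxΩ, hx1, exists_of_lt_Vf hl.le hx2⟩
    · rw [hV, indicator_of_notMem hxΩ] at hx2
      exact absurd hx2 (not_lt.2 hl.le)) Ω φ h1
  rw [← int_norm_jac, ← int_norm_phi, ← norm_test1 h1 h2, ← norm_test2 h1 h3] at t2
  have hβ0 : 0 ≤ m + K * (c' * ν) / r ^ 2 := by positivity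
  have t3 : -⟪tensL q.1, G⟫_ℝ ≤ K * (c' * ν) * ‖q.2‖ ^ 2
      + (m + K * (c' * ν) / r ^ 2) * ‖q.1‖ ^ 2 := by
    have e1 : -⟪tensL q.1, G⟫_ℝ = ∫ x in Ω, Qf (G x) (φ x) := by
      rw [L2.inner_def, ← integral_neg]
      refine integral_congr_ae ?_
      filter_upwards [tensL_coe hΩm hqW, h2] with x a b
      rw [a, b, inner_M3]
      unfold Qf
      congr 1
      refine Finset.sum_congr rfl fun i _ => Finset.sum_congr rfl fun j _ => ?_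
      show φ x i * φ x j * G x (i, j) = _
      ring
    have e2 : ENNReal.ofReal (∫ x in Ω, Qf (G x) (φ x))
        ≤ ∫⁻ x in Ω, ENNReal.ofReal (Qf (G x) (φ x)) := by
      by_cases hi : Integrable (fun x => Qf (G x) (φ x)) (volume.restrict Ω)
      · rw [integral_eq_lintegral_pos_part_sub_lintegral_neg_part hi]
        refine (ENNReal.ofReal_le_ofReal (sub_le_self _ ENNReal.toReal_nonneg)).trans ?_
        exact ENNReal.ofReal_toReal_le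
      · rw [integral_undef hi]
        simp
    have e3 : ∫⁻ x in Ω, ENNReal.ofReal (Qf (G x) (φ x))
        ≤ ∫⁻ x, ENNReal.ofReal (V x) * ENNReal.ofReal (‖φ x‖ ^ 2) := by
      rw [← lintegral_indicator hΩm]
      refine lintegral_mono fun x => ?_
      by_cases hxΩ : x ∈ Ω
      · rw [indicator_of_mem hxΩ, ← ENNReal.ofReal_mul (hV0 x), hV, indicator_of_mem hxΩ]
        exact ENNReal.ofReal_le_ofReal (Qf_le_Vf _ _)
      · rw [indicator_of_notMem hxΩ]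
        exact bot_le
    rw [e1]
    exact (ENNReal.ofReal_le_ofReal_iff (by positivity)).1 ((e2.trans e3).trans t2)
  have hKν : K * (c' * ν) ≤ 1 / 2 * ν := by
    have := mul_le_mul_of_nonneg_right hKc hν.le
    linarith
  have b1 : K * (c' * ν) * ‖q.2‖ ^ 2 ≤ 1 / 2 * ν * ‖q.2‖ ^ 2 :=
    mul_le_mul_of_nonneg_right hKν (by positivity)
  have b2 : (m + K * (c' * ν) / r ^ 2) * ‖q.1‖ ^ 2 ≤ β * ‖q.1‖ ^ 2 := by
    refine mul_le_mul_of_nonneg_right (le_trans ?_ hβ) (by positivity)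
    have : K * (c' * ν) / r ^ 2 ≤ ν / r ^ 2 :=
      div_le_div_of_nonneg_right (by linarith) (by positivity)
    linarith
  linarith

end Q85.CR
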