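import Pool.Agent.Q85.CR.Est

/-!
The form inequalities for test fields.
-/

set_option autoImplicit false

open MeasureTheory Set Filter Topology
open scoped ENNReal NNReal ContDiff InnerProductSpace

namespace Q85.CR

open H772R2.NS Pool.Agent.TH340.FF

variable {Ω : Set E3} {φ : E3 → E3}

theorem ton {k F : E3 → ℝ≥0∞} (hk : Measurable k) (hF : Measurable F) :
    ∫⁻ y, ∫⁻ x, k (x - y) * F x = (∫⁻ x, k x) * ∫⁻ x, F x := by
  rw [lintegral_lintegral_swap (by fun_prop), ← lintegral_const_mul _ hF]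
  refine lintegral_congr fun x => ?_
  have hkx : Measurable fun y => k (x - y) := by fun_prop
  rw [lintegral_mul_const _ hkx, lintegral_sub_left_eq_self]

theorem lin3 {a b c : ℝ≥0∞} {f g h : E3 → ℝ≥0∞} (hf : Measurable f) (hg : Measurable g)
    (hh : Measurable h) : ∫⁻ x, (a * f x + b * g x + c * h x)
      = a * (∫⁻ x, f x) + b * (∫⁻ x, g x) + c * ∫⁻ x, h x := by
  rw [lintegral_add_left (by fun_prop), lintegral_add_left (by fun_prop),
    lintegral_const_mul _ hf, lintegral_const_mul _ hg, lintegral_const_mul _ hh]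

theorem lin4 {a b c d : ℝ≥0∞} {f g h k : E3 → ℝ≥0∞} (hf : Measurable f) (hg : Measurable g)
    (hh : Measurable h) (hk : Measurable k) : ∫⁻ x, (a * f x + b * g x + c * h x + d * k x)
      = a * (∫⁻ x, f x) + b * (∫⁻ x, g x) + c * (∫⁻ x, h x) + d * ∫⁻ x, k x := by
  rw [lintegral_add_left (by fun_prop), lin3 hf hg hh, lintegral_const_mul _ hk]

theorem meas_inner {k F : E3 → ℝ≥0∞} (hk : Measurable k) (hF : Measurable F) :
    Measurable fun y => ∫⁻ x, k (x - y) * F x := by
  have : Measurable fun p : E3 × E3 => k (p.2 - p.1) * F p.2 := by fun_prop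
  exact this.lintegral_prod_right'

theorem young {A B X α : ℝ} (hα : 0 < α) :
    X * (A + 2 * B) ≤ 2 * α * A ^ 2 + 8 * α * B ^ 2 + X ^ 2 / (4 * α) := by
  have h1 : X * (A + 2 * B) ≤ α * (A + 2 * B) ^ 2 + X ^ 2 / (4 * α) := by
    have h2 : X * (A + 2 * B) * (4 * α) ≤ (2 * α * (A + 2 * B)) ^ 2 + X ^ 2 := by
      nlinarith [sq_nonneg (2 * α * (A + 2 * B) - X)]
    have h3 : α * (A + 2 * B) ^ 2 + X ^ 2 / (4 * α)
        = ((2 * α * (A + 2 * B)) ^ 2 + X ^ 2) / (4 * α) := by
      field_simp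
      ring
    rw [h3, le_div_iff₀ (by positivity)]
    exact h2
  have h4 : (A + 2 * B) ^ 2 ≤ 2 * A ^ 2 + 8 * B ^ 2 := by nlinarith [sq_nonneg (A - 2 * B)]
  have h5 : α * (A + 2 * B) ^ 2 ≤ α * (2 * A ^ 2 + 8 * B ^ 2) := by gcongr
  linarith

theorem point {m G e p J D α N : ℝ} (hα : 0 < α) (he : 0 ≤ e) (hp : 0 ≤ p) (hJ : 0 ≤ J)
    (hD : 0 ≤ D) (hN : N * e ≤ (m + G) * e) :
    N * (e * p * (e * J + 2 * D * p)) ≤ 2 * α * (e ^ 2 * J ^ 2) + 8 * α * (D ^ 2 * p ^ 2)
      + m ^ 2 / (2 * α) * (e ^ 2 * p ^ 2) + 1 / (2 * α) * (G ^ 2 * (e ^ 2 * p ^ 2)) := by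
  have h1 := young (A := e * J) (B := D * p) (X := (m + G) * e * p) hα
  have h2 : N * (e * p * (e * J + 2 * D * p)) ≤ (m + G) * e * p * (e * J + 2 * (D * p)) := by
    have h3 : 0 ≤ p * (e * J + 2 * D * p) := by positivity
    calc N * (e * p * (e * J + 2 * D * p)) = (N * e) * (p * (e * J + 2 * D * p)) := by ring
      _ ≤ ((m + G) * e) * (p * (e * J + 2 * D * p)) := by gcongr
      _ = _ := by ring
  have h4 : ((m + G) * e * p) ^ 2 / (4 * α) ≤ m ^ 2 / (2 * α) * (e ^ 2 * p ^ 2)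
      + 1 / (2 * α) * (G ^ 2 * (e ^ 2 * p ^ 2)) := by
    have h5 : m ^ 2 / (2 * α) * (e ^ 2 * p ^ 2) + 1 / (2 * α) * (G ^ 2 * (e ^ 2 * p ^ 2))
        = (2 * (m ^ 2 + G ^ 2) * (e * p) ^ 2) / (4 * α) := by
      field_simp
      ring
    rw [h5]
    gcongr
    have h6 : (m + G) ^ 2 ≤ 2 * (m ^ 2 + G ^ 2) := by nlinarith [sq_nonneg (m - G)]
    calc ((m + G) * e * p) ^ 2 = (m + G) ^ 2 * (e * p) ^ 2 := by ring
      _ ≤ _ := by gcongr
  nlinarith

/-- **the form inequality**, slow regions -/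
theorem form_speed : ∃ K : ℝ, 0 < K ∧ ∀ (r m κ α : ℝ), 0 < r → 0 ≤ m → 0 < κ → 0 < α →
    ∀ W : E3 → E3, Integrable W → Measurable W →
    (∀ y : E3, ∃ a : E3, ∀ l : ℝ, 0 < l → m ≤ l →
      volume {x | ‖x - y‖ < r ∧ l < ‖W x - a‖} ≤ ENNReal.ofReal ((κ / l) ^ 3)) →
    ∀ (Ω : Set E3) (φ : E3 → E3), H772R2.NS.IsTest Ω φ →
    ∫ x, ∑ i, W x i * f1 φ x i ≤ (2 * α + K * κ ^ 2 / α) * (∫ x, ‖jac φ x‖ ^ 2)
      + (m ^ 2 / (2 * α) + K * (α + κ ^ 2 / α) / r ^ 2) * ∫ x, ‖φ x‖ ^ 2 := by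
  obtain ⟨N, hN0, hN⟩ := exists_bump
  obtain ⟨C, hC0, hC⟩ := local_mult
  refine ⟨C + 8 * N + C * N, by positivity, ?_⟩
  intro r m κ α hr hm hκ hα W hW hWm hyp Ω φ h
  obtain ⟨η, hη, hηz, hη1, hη2⟩ := hN r hr
  have hsm := h.smooth
  have hφc : Continuous φ := hsm.continuous
  have hηc : Continuous η := hη.continuous
  have hDη : Continuous (fderiv ℝ η) := hη.continuous_fderiv (by simp)
  have hJ := measurable_jac hsm
  have hηs : HasCompactSupport η := by
    refine HasCompactSupport.intro (isCompact_closedBall (0 : E3) r) fun x hx => hηz x ?_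
    simp only [Metric.mem_closedBall, dist_zero_right, not_le] at hx
    exact hx.le
  have hη1' : ∫ x, η x ^ 2 = 1 := by
    rw [integral_eq_lintegral_of_nonneg_ae (Eventually.of_forall fun x => sq_nonneg _)
      (by fun_prop), hη1]
    simp
  set e1 : E3 → ℝ≥0∞ := fun x => ENNReal.ofReal (η x ^ 2) with he1
  set e2 : E3 → ℝ≥0∞ := fun x => ENNReal.ofReal (‖fderiv ℝ η x‖ ^ 2) with he2
  set fJ : E3 → ℝ≥0∞ := fun x => ENNReal.ofReal (‖jac φ x‖ ^ 2) with hfJ
  set fp : E3 → ℝ≥0∞ := fun x => ENNReal.ofReal (‖φ x‖ ^ 2) with hfp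
  have me1 : Measurable e1 := by fun_prop
  have me2 : Measurable e2 := by fun_prop
  have mfJ : Measurable fJ := hJ.measurable.ennreal_ofReal
  have mfp : Measurable fp := by fun_prop
  set c1 : ℝ := 2 * α + 1 / (2 * α) * (C * κ ^ 2) with hc1
  set c2 : ℝ := 8 * α + 1 / (2 * α) * (C * κ ^ 2) with hc2
  set c3 : ℝ := m ^ 2 / (2 * α) with hc3
  have hc10 : 0 ≤ c1 := by positivity
  have hc20 : 0 ≤ c2 := by positivity
  have hc30 : 0 ≤ c3 := by positivity
  have hy : ∀ y, ‖∫ x, ∑ i, W x i * lf η φ y x i‖ₑ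
      ≤ ENNReal.ofReal c1 * (∫⁻ x, e1 (x - y) * fJ x)
        + ENNReal.ofReal c2 * (∫⁻ x, e2 (x - y) * fp x)
        + ENNReal.ofReal c3 * (∫⁻ x, e1 (x - y) * fp x) := by
    intro y
    obtain ⟨a, ha⟩ := hyp y
    have hlf : Continuous fun x => lf η φ y x :=
      (cont_lf hη hsm).comp (Continuous.prodMk continuous_const continuous_id)
    have hlfc : ∀ i, HasCompactSupport fun x => lf η φ y x i := fun i => by
      refine h.compact.mono fun x hx h0 => hx ?_
      simp only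
      rw [lf_zero h0]
      rfl
    have hlfi : ∀ i, Continuous fun x => lf η φ y x i := fun i =>
      (EuclideanSpace.proj i).continuous.comp hlf
    have i1 : Integrable fun x => ∑ i, W x i * lf η φ y x i :=
      integrable_finsetSum _ fun i _ => int_W hW (hlfi i) (hlfc i) i
    have i2 : Integrable fun x => ∑ i, a i * lf η φ y x i :=
      integrable_finsetSum _ fun i _ =>
        ((hlfi i).integrable_of_hasCompactSupport (hlfc i)).const_mul _
    have h1 : ∫ x, ∑ i, W x i * lf η φ y x i = ∫ x, ⟪W x - a, lf η φ y x⟫_ℝ := by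
      have h2 : ∫ x, ∑ i, W x i * lf η φ y x i = (∫ x, ∑ i, W x i * lf η φ y x i)
          - ∫ x, ∑ i, a i * lf η φ y x i := by rw [lf_const h hη a y, sub_zero]
      rw [h2, ← integral_sub i1 i2]
      refine integral_congr_ae (Eventually.of_forall fun x => ?_)
      simp only
      rw [inner_E3, ← Finset.sum_sub_distrib]
      exact Finset.sum_congr rfl fun i _ => by
        simp only [PiLp.sub_apply]
        ring
    rw [h1]
    set G : E3 → ℝ := fun x => if ‖x - y‖ < r ∧ m < ‖W x - a‖ then ‖W x - a‖ else 0 with hG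
    have s1 : MeasurableSet {x : E3 | ‖x - y‖ < r} := measurableSet_lt (by fun_prop) measurable_const
    have s2 : MeasurableSet {x : E3 | m < ‖W x - a‖} :=
      measurableSet_lt measurable_const (by fun_prop)
    have hGset : MeasurableSet {x | ‖x - y‖ < r ∧ m < ‖W x - a‖} := s1.inter s2
    have hGm : Measurable G := Measurable.ite hGset (by fun_prop) measurable_const
    have hG0 : ∀ x, 0 ≤ G x := fun x => by
      simp only [hG]
      split_ifs
      · exact norm_nonneg _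
      · exact le_rfl
    have hGw : ∀ l : ℝ, 0 < l → volume {x | l < G x} ≤ ENNReal.ofReal ((κ / l) ^ 3) := by
      intro l hl
      rcases le_or_gt m l with hml | hml
      · refine (measure_mono fun x hx => ?_).trans (ha l hl hml)
        have hx' : l < G x := hx
        simp only [hG] at hx'
        split_ifs at hx' with hc
        · exact ⟨hc.1, hx'⟩
        · exact absurd hx' (not_lt.2 hl.le)
      · have hm0 : 0 < m := hl.trans hml
        refine ((measure_mono fun x hx => ?_).trans (ha m hm0 le_rfl)).trans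
          (ENNReal.ofReal_le_ofReal ?_)
        · have hx' : l < G x := hx
          simp only [hG] at hx'
          split_ifs at hx' with hc
          · exact hc
          · exact absurd hx' (not_lt.2 hl.le)
        · gcongr
    have h3 := hC G hGm hG0 κ hκ hGw Ω φ h η hη y
    have hpt : ∀ x, ‖⟪W x - a, lf η φ y x⟫_ℝ‖ₑ ≤ ENNReal.ofReal (2 * α) * (e1 (x - y) * fJ x)
        + ENNReal.ofReal (8 * α) * (e2 (x - y) * fp x)
        + ENNReal.ofReal c3 * (e1 (x - y) * fp x)
        + ENNReal.ofReal (1 / (2 * α)) * (ENNReal.ofReal (G x ^ 2) * (e1 (x - y) * fp x)) := by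
      intro x
      have hNe : ‖W x - a‖ * |η (x - y)| ≤ (m + G x) * |η (x - y)| := by
        rcases lt_or_ge ‖x - y‖ r with hx | hx
        · gcongr
          simp only [hG]
          split_ifs with hc
          · linarith
          · have : ‖W x - a‖ ≤ m := by
              by_contra hcon
              exact hc ⟨hx, not_le.1 hcon⟩
            linarith
        · rw [hηz _ hx]
          simp
      have h4 := point hα (abs_nonneg (η (x - y))) (norm_nonneg (φ x)) (norm_nonneg (jac φ x))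
        (norm_nonneg (fderiv ℝ η (x - y))) hNe
      have h5 : |⟪W x - a, lf η φ y x⟫_ℝ| ≤ ‖W x - a‖ * (|η (x - y)| * ‖φ x‖
          * (|η (x - y)| * ‖jac φ x‖ + 2 * ‖fderiv ℝ η (x - y)‖ * ‖φ x‖)) :=
        (abs_real_inner_le_norm _ _).trans (by gcongr; exact norm_lf y x)
      have h6 := h5.trans h4
      rw [sq_abs] at h6
      rw [← ofReal_norm, Real.norm_eq_abs]
      refine (ENNReal.ofReal_le_ofReal h6).trans (le_of_eq ?_)
      simp only [he1, he2, hfJ, hfp]
      rw [← ENNReal.ofReal_mul (by positivity), ← ENNReal.ofReal_mul (by positivity),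
        ← ENNReal.ofReal_mul (by positivity), ← ENNReal.ofReal_mul (by positivity),
        ← ENNReal.ofReal_mul (by positivity), ← ENNReal.ofReal_mul (by positivity),
        ← ENNReal.ofReal_mul (by positivity), ← ENNReal.ofReal_mul (by positivity),
        ← ENNReal.ofReal_add (by positivity) (by positivity),
        ← ENNReal.ofReal_add (by positivity) (by positivity),
        ← ENNReal.ofReal_add (by positivity) (by positivity)]
    have m1 : Measurable fun x => e1 (x - y) * fJ x := by fun_prop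
    have m2 : Measurable fun x => e2 (x - y) * fp x := by fun_prop
    have m3 : Measurable fun x => e1 (x - y) * fp x := by fun_prop
    calc ‖∫ x, ⟪W x - a, lf η φ y x⟫_ℝ‖ₑ ≤ ∫⁻ x, ‖⟪W x - a, lf η φ y x⟫_ℝ‖ₑ :=
          enorm_integral_le_lintegral_enorm _
      _ ≤ ∫⁻ x, (ENNReal.ofReal (2 * α) * (e1 (x - y) * fJ x)
        + ENNReal.ofReal (8 * α) * (e2 (x - y) * fp x)
        + ENNReal.ofReal c3 * (e1 (x - y) * fp x)
        + ENNReal.ofReal (1 / (2 * α)) * (ENNReal.ofReal (G x ^ 2) * (e1 (x - y) * fp x))) :=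
          lintegral_mono hpt
      _ = ENNReal.ofReal (2 * α) * (∫⁻ x, e1 (x - y) * fJ x)
        + ENNReal.ofReal (8 * α) * (∫⁻ x, e2 (x - y) * fp x)
        + ENNReal.ofReal c3 * (∫⁻ x, e1 (x - y) * fp x)
        + ENNReal.ofReal (1 / (2 * α))
          * ∫⁻ x, ENNReal.ofReal (G x ^ 2) * (e1 (x - y) * fp x) := by
          exact lin4 m1 m2 m3 (by fun_prop)
      _ ≤ ENNReal.ofReal (2 * α) * (∫⁻ x, e1 (x - y) * fJ x)
        + ENNReal.ofReal (8 * α) * (∫⁻ x, e2 (x - y) * fp x)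
        + ENNReal.ofReal c3 * (∫⁻ x, e1 (x - y) * fp x)
        + ENNReal.ofReal (1 / (2 * α)) * (ENNReal.ofReal (C * κ ^ 2)
          * ((∫⁻ x, e1 (x - y) * fJ x) + ∫⁻ x, e2 (x - y) * fp x)) := by
          gcongr
      _ = _ := by
          rw [hc1, hc2, ENNReal.ofReal_add (by positivity) (by positivity),
            ENNReal.ofReal_add (p := 8 * α) (by positivity) (by positivity),
            ENNReal.ofReal_mul (p := 1 / (2 * α)) (by positivity)]
          ring
  have hfin1 : Integrable fun x => ‖jac φ x‖ ^ 2 := by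
    refine hJ.integrable_of_hasCompactSupport ?_
    refine h.compact.mono' ?_
    intro x hx
    by_contra hcon
    apply hx
    have : jac φ x = 0 := image_eq_zero_of_notMem_tsupport fun hc => hcon (tsupport_jac_subset hc)
    simp [this]
  have hfin2 : Integrable fun x => ‖φ x‖ ^ 2 :=
    Continuous.integrable_of_hasCompactSupport (by fun_prop)
      (h.compact.comp_left (g := fun y => ‖y‖ ^ 2) (by simp))
  have hDJ : ∫⁻ x, fJ x = ENNReal.ofReal (∫ x, ‖jac φ x‖ ^ 2) :=
    (ofReal_integral_eq_lintegral_ofReal hfin1 (Eventually.of_forall fun x => sq_nonneg _)).symm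
  have hDp : ∫⁻ x, fp x = ENNReal.ofReal (∫ x, ‖φ x‖ ^ 2) :=
    (ofReal_integral_eq_lintegral_ofReal hfin2 (Eventually.of_forall fun x => sq_nonneg _)).symm
  set DJ : ℝ := ∫ x, ‖jac φ x‖ ^ 2 with hDJd
  set Dp : ℝ := ∫ x, ‖φ x‖ ^ 2 with hDpd
  have hDJ0 : 0 ≤ DJ := integral_nonneg fun x => sq_nonneg _
  have hDp0 : 0 ≤ Dp := integral_nonneg fun x => sq_nonneg _
  have htot : ‖∫ x, ∑ i, W x i * f1 φ x i‖ₑ
      ≤ ENNReal.ofReal (c1 * DJ + c2 * (N / r ^ 2 * Dp) + c3 * Dp) := by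
    rw [← avg_identity h hη hηs hη1' hW]
    calc ‖∫ y, ∫ x, ∑ i, W x i * lf η φ y x i‖ₑ ≤ ∫⁻ y, ‖∫ x, ∑ i, W x i * lf η φ y x i‖ₑ :=
          enorm_integral_le_lintegral_enorm _
      _ ≤ ∫⁻ y, (ENNReal.ofReal c1 * (∫⁻ x, e1 (x - y) * fJ x)
        + ENNReal.ofReal c2 * (∫⁻ x, e2 (x - y) * fp x)
        + ENNReal.ofReal c3 * (∫⁻ x, e1 (x - y) * fp x)) := lintegral_mono hy
      _ = ENNReal.ofReal c1 * ((∫⁻ x, e1 x) * ∫⁻ x, fJ x)
        + ENNReal.ofReal c2 * ((∫⁻ x, e2 x) * ∫⁻ x, fp x)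
        + ENNReal.ofReal c3 * ((∫⁻ x, e1 x) * ∫⁻ x, fp x) := by
          rw [lin3 (meas_inner me1 mfJ) (meas_inner me2 mfp) (meas_inner me1 mfp), ton me1 mfJ,
            ton me2 mfp, ton me1 mfp]
      _ ≤ ENNReal.ofReal c1 * (1 * ENNReal.ofReal DJ)
        + ENNReal.ofReal c2 * (ENNReal.ofReal (N / r ^ 2) * ENNReal.ofReal Dp)
        + ENNReal.ofReal c3 * (1 * ENNReal.ofReal Dp) := by
          rw [hDJ, hDp, hη1]
          gcongr
      _ = _ := by
          rw [one_mul, one_mul, ← ENNReal.ofReal_mul (by positivity),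
            ← ENNReal.ofReal_mul (by positivity), ← ENNReal.ofReal_mul (by positivity),
            ← ENNReal.ofReal_mul (by positivity),
            ← ENNReal.ofReal_add (by positivity) (by positivity),
            ← ENNReal.ofReal_add (by positivity) (by positivity)]
  rw [← ofReal_norm, Real.norm_eq_abs, ENNReal.ofReal_le_ofReal_iff (by positivity)] at htot
  refine ((le_abs_self _).trans htot).trans ?_
  have g1 : c1 ≤ 2 * α + (C + 8 * N + C * N) * κ ^ 2 / α := by
    have : 1 / (2 * α) * (C * κ ^ 2) ≤ (C + 8 * N + C * N) * κ ^ 2 / α := by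
      rw [div_mul_eq_mul_div, one_mul, div_le_div_iff₀ (by positivity) hα]
      have h9 : 0 ≤ (C + 16 * N + 2 * C * N) * κ ^ 2 * α := by positivity
      nlinarith
    rw [hc1]
    linarith
  have g2 : c2 * (N / r ^ 2) ≤ (C + 8 * N + C * N) * (α + κ ^ 2 / α) / r ^ 2 := by
    rw [mul_div_assoc', div_le_div_iff_of_pos_right (by positivity)]
    have : 1 / (2 * α) * (C * κ ^ 2) = C * (κ ^ 2 / α) / 2 := by
      field_simp
    rw [hc2, this]
    have h8 : 0 ≤ κ ^ 2 / α := by positivity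
    have h9 : 0 ≤ (C + C * N) * α + (C + 8 * N + C * N / 2) * (κ ^ 2 / α) := by positivity
    nlinarith
  calc c1 * DJ + c2 * (N / r ^ 2 * Dp) + c3 * Dp
      = c1 * DJ + (c3 + c2 * (N / r ^ 2)) * Dp := by ring
    _ ≤ _ := by gcongr

theorem rpow_aux {κ l : ℝ} (hκ : 0 < κ) (hl : 0 < l) :
    (κ / l ^ 2) ^ (3 / 2 : ℝ) = (Real.sqrt κ / l) ^ 3 := by
  have h1 : κ / l ^ 2 = (Real.sqrt κ / l) ^ 2 := by rw [div_pow, Real.sq_sqrt hκ.le]
  rw [h1, ← Real.rpow_natCast (Real.sqrt κ / l) 2, ← Real.rpow_mul (by positivity),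
    ← Real.rpow_natCast (Real.sqrt κ / l) 3]
  norm_num

/-- **the form inequality**, weak compression -/
theorem form_rate : ∃ K : ℝ, 0 < K ∧ ∀ (r m κ : ℝ), 0 < r → 0 ≤ m → 0 < κ →
    ∀ V : E3 → ℝ, Measurable V → (∀ x, 0 ≤ V x) →
    (∀ y : E3, ∀ l : ℝ, 0 < l → m ≤ l →
      volume {x | ‖x - y‖ < r ∧ l < V x} ≤ ENNReal.ofReal ((κ / l) ^ (3 / 2 : ℝ))) →
    ∀ (Ω : Set E3) (φ : E3 → E3), H772R2.NS.IsTest Ω φ →
    ∫⁻ x, ENNReal.ofReal (V x) * ENNReal.ofReal (‖φ x‖ ^ 2)
      ≤ ENNReal.ofReal (K * κ * (∫ x, ‖jac φ x‖ ^ 2) + (m + K * κ / r ^ 2) * ∫ x, ‖φ x‖ ^ 2) := by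
  obtain ⟨N, hN0, hN⟩ := exists_bump
  obtain ⟨C, hC0, hC⟩ := local_mult
  refine ⟨C + C * N, by positivity, ?_⟩
  intro r m κ hr hm hκ V hV hV0 hyp Ω φ h
  obtain ⟨η, hη, hηz, hη1, hη2⟩ := hN r hr
  have hsm := h.smooth
  have hφc : Continuous φ := hsm.continuous
  have hηc : Continuous η := hη.continuous
  have hDη : Continuous (fderiv ℝ η) := hη.continuous_fderiv (by simp)
  have hJ := measurable_jac hsm
  set e1 : E3 → ℝ≥0∞ := fun x => ENNReal.ofReal (η x ^ 2) with he1
  set e2 : E3 → ℝ≥0∞ := fun x => ENNReal.ofReal (‖fderiv ℝ η x‖ ^ 2) with he2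
  set fJ : E3 → ℝ≥0∞ := fun x => ENNReal.ofReal (‖jac φ x‖ ^ 2) with hfJ
  set fp : E3 → ℝ≥0∞ := fun x => ENNReal.ofReal (‖φ x‖ ^ 2) with hfp
  have me1 : Measurable e1 := by fun_prop
  have me2 : Measurable e2 := by fun_prop
  have mfJ : Measurable fJ := hJ.measurable.ennreal_ofReal
  have mfp : Measurable fp := by fun_prop
  have mV : Measurable fun x => ENNReal.ofReal (V x) * fp x := by fun_prop
  have hsq : 0 < Real.sqrt κ := Real.sqrt_pos.2 hκ
  have hy : ∀ y, ∫⁻ x, e1 (x - y) * (ENNReal.ofReal (V x) * fp x)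
      ≤ ENNReal.ofReal m * (∫⁻ x, e1 (x - y) * fp x) + ENNReal.ofReal (C * κ)
        * ((∫⁻ x, e1 (x - y) * fJ x) + ∫⁻ x, e2 (x - y) * fp x) := by
    intro y
    set G : E3 → ℝ := fun x => if ‖x - y‖ < r ∧ m < V x then Real.sqrt (V x) else 0 with hG
    have s1 : MeasurableSet {x : E3 | ‖x - y‖ < r} := measurableSet_lt (by fun_prop) measurable_const
    have s2 : MeasurableSet {x : E3 | m < V x} := measurableSet_lt measurable_const hV
    have hGset : MeasurableSet {x | ‖x - y‖ < r ∧ m < V x} := s1.inter s2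
    have hGm : Measurable G := Measurable.ite hGset hV.sqrt measurable_const
    have hG0 : ∀ x, 0 ≤ G x := fun x => by
      simp only [hG]
      split_ifs
      · exact Real.sqrt_nonneg _
      · exact le_rfl
    have hGw : ∀ l : ℝ, 0 < l → volume {x | l < G x} ≤ ENNReal.ofReal ((Real.sqrt κ / l) ^ 3) := by
      intro l hl
      have hl2 : 0 < l ^ 2 := by positivity
      rw [← rpow_aux hκ hl]
      have hsub : ∀ x, l < G x → ‖x - y‖ < r ∧ m < V x ∧ l ^ 2 < V x := by
        intro x hx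
        simp only [hG] at hx
        split_ifs at hx with hc
        · exact ⟨hc.1, hc.2, (Real.lt_sqrt hl.le).1 hx⟩
        · exact absurd hx (not_lt.2 hl.le)
      rcases le_or_gt m (l ^ 2) with hml | hml
      · exact (measure_mono (t := {x | ‖x - y‖ < r ∧ l ^ 2 < V x}) fun x hx =>
          ⟨(hsub x hx).1, (hsub x hx).2.2⟩).trans (hyp y _ hl2 hml)
      · have hm0 : 0 < m := hl2.trans hml
        refine ((measure_mono (t := {x | ‖x - y‖ < r ∧ m < V x}) fun x hx =>
          ⟨(hsub x hx).1, (hsub x hx).2.1⟩).trans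
          (hyp y m hm0 le_rfl)).trans (ENNReal.ofReal_le_ofReal ?_)
        gcongr
    have h3 := hC G hGm hG0 _ hsq hGw Ω φ h η hη y
    rw [Real.sq_sqrt hκ.le] at h3
    have hpt : ∀ x, e1 (x - y) * (ENNReal.ofReal (V x) * fp x)
        ≤ ENNReal.ofReal m * (e1 (x - y) * fp x)
          + 1 * (ENNReal.ofReal (G x ^ 2) * (e1 (x - y) * fp x)) := by
      intro x
      rcases lt_or_ge ‖x - y‖ r with hx | hx
      · have h4 : ENNReal.ofReal (V x) ≤ ENNReal.ofReal m + ENNReal.ofReal (G x ^ 2) := by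
          rw [← ENNReal.ofReal_add hm (sq_nonneg _)]
          refine ENNReal.ofReal_le_ofReal ?_
          by_cases hc : m < V x
          · have : G x = Real.sqrt (V x) := by
              simp only [hG]
              rw [if_pos ⟨hx, hc⟩]
            rw [this, Real.sq_sqrt (hV0 x)]
            linarith
          · have := sq_nonneg (G x)
            linarith [not_lt.1 hc]
        calc e1 (x - y) * (ENNReal.ofReal (V x) * fp x)
            ≤ e1 (x - y) * ((ENNReal.ofReal m + ENNReal.ofReal (G x ^ 2)) * fp x) := by gcongr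
          _ = _ := by ring
      · have h5 : e1 (x - y) = 0 := by
          simp only [he1]
          rw [hηz _ hx]
          simp
        rw [h5]
        simp
    calc ∫⁻ x, e1 (x - y) * (ENNReal.ofReal (V x) * fp x)
        ≤ ∫⁻ x, (ENNReal.ofReal m * (e1 (x - y) * fp x)
          + 1 * (ENNReal.ofReal (G x ^ 2) * (e1 (x - y) * fp x))) := lintegral_mono hpt
      _ = ENNReal.ofReal m * (∫⁻ x, e1 (x - y) * fp x)
          + 1 * ∫⁻ x, (ENNReal.ofReal (G x ^ 2) * (e1 (x - y) * fp x)) := by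
          have m3 : Measurable fun x => e1 (x - y) * fp x := by fun_prop
          rw [lintegral_add_left (m3.const_mul _), lintegral_const_mul _ m3,
            lintegral_const_mul _ (by fun_prop)]
      _ ≤ _ := by
          rw [one_mul]
          gcongr
  have hfin1 : Integrable fun x => ‖jac φ x‖ ^ 2 := by
    refine hJ.integrable_of_hasCompactSupport ?_
    refine h.compact.mono' ?_
    intro x hx
    by_contra hcon
    apply hx
    have : jac φ x = 0 := image_eq_zero_of_notMem_tsupport fun hc => hcon (tsupport_jac_subset hc)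
    simp [this]
  have hfin2 : Integrable fun x => ‖φ x‖ ^ 2 :=
    Continuous.integrable_of_hasCompactSupport (by fun_prop)
      (h.compact.comp_left (g := fun y => ‖y‖ ^ 2) (by simp))
  have hDJ : ∫⁻ x, fJ x = ENNReal.ofReal (∫ x, ‖jac φ x‖ ^ 2) :=
    (ofReal_integral_eq_lintegral_ofReal hfin1 (Eventually.of_forall fun x => sq_nonneg _)).symm
  have hDp : ∫⁻ x, fp x = ENNReal.ofReal (∫ x, ‖φ x‖ ^ 2) :=
    (ofReal_integral_eq_lintegral_ofReal hfin2 (Eventually.of_forall fun x => sq_nonneg _)).symm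
  set DJ : ℝ := ∫ x, ‖jac φ x‖ ^ 2 with hDJd
  set Dp : ℝ := ∫ x, ‖φ x‖ ^ 2 with hDpd
  have hDJ0 : 0 ≤ DJ := integral_nonneg fun x => sq_nonneg _
  have hDp0 : 0 ≤ Dp := integral_nonneg fun x => sq_nonneg _
  calc ∫⁻ x, ENNReal.ofReal (V x) * fp x
      = ∫⁻ y, ∫⁻ x, e1 (x - y) * (ENNReal.ofReal (V x) * fp x) := by
        rw [ton me1 mV, hη1, one_mul]
    _ ≤ ∫⁻ y, (ENNReal.ofReal m * (∫⁻ x, e1 (x - y) * fp x) + ENNReal.ofReal (C * κ)
        * (∫⁻ x, e1 (x - y) * fJ x) + ENNReal.ofReal (C * κ) * ∫⁻ x, e2 (x - y) * fp x) := by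
        refine lintegral_mono fun y => (hy y).trans (le_of_eq ?_)
        ring
    _ = ENNReal.ofReal m * ((∫⁻ x, e1 x) * ∫⁻ x, fp x)
        + ENNReal.ofReal (C * κ) * ((∫⁻ x, e1 x) * ∫⁻ x, fJ x)
        + ENNReal.ofReal (C * κ) * ((∫⁻ x, e2 x) * ∫⁻ x, fp x) := by
        rw [lin3 (meas_inner me1 mfp) (meas_inner me1 mfJ) (meas_inner me2 mfp), ton me1 mfp,
          ton me1 mfJ, ton me2 mfp]
    _ ≤ ENNReal.ofReal m * (1 * ENNReal.ofReal Dp)
        + ENNReal.ofReal (C * κ) * (1 * ENNReal.ofReal DJ)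
        + ENNReal.ofReal (C * κ) * (ENNReal.ofReal (N / r ^ 2) * ENNReal.ofReal Dp) := by
        rw [hDJ, hDp, hη1]
        gcongr
    _ = ENNReal.ofReal (m * Dp + C * κ * DJ + C * κ * (N / r ^ 2 * Dp)) := by
        rw [one_mul, one_mul, ← ENNReal.ofReal_mul (by positivity),
          ← ENNReal.ofReal_mul (by positivity), ← ENNReal.ofReal_mul (by positivity),
          ← ENNReal.ofReal_mul (by positivity),
          ← ENNReal.ofReal_add (by positivity) (by positivity),
          ← ENNReal.ofReal_add (by positivity) (by positivity)]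
    _ ≤ _ := by
        refine ENNReal.ofReal_le_ofReal ?_
        have g1 : C * κ * DJ ≤ (C + C * N) * κ * DJ := by
          gcongr
          nlinarith
        have g2 : C * κ * (N / r ^ 2 * Dp) ≤ (C + C * N) * κ / r ^ 2 * Dp := by
          have : C * κ * (N / r ^ 2 * Dp) = (C * N) * κ / r ^ 2 * Dp := by ring
          rw [this]
          gcongr
          linarith
        nlinarith

end Q85.CR
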