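import Pool.Agent.Q85.CR.Ext

/-!
Application to Leray-Hopf solutions in bounded domains.
-/

set_option autoImplicit false

open MeasureTheory Set Filter Topology
open scoped InnerProductSpace ENNReal ContDiff

namespace Q85.CR

open H772R2.NS.Pub Pool.Agent.W795.TQ Pool.Agent.TH340.FF
open Pool.Agent.W795.ES (stretch outer)

theorem outer_eq (A : H772R2.NS.M3) (v : H772R2.NS.E3) :
    -⟪(show Mat from A), outer (show R3 from v)⟫_ℝ = Qf A v := by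
  have h : (outer (show R3 from v) : H772R2.NS.M3)
      = WithLp.toLp 2 fun p : Fin 3 × Fin 3 => v p.1 * v p.2 := by
    refine PiLp.ext fun r => ?_
    show ⟪(H772R2.NS.Pub.e r.1 : H772R2.NS.E3), (v : H772R2.NS.E3)⟫_ℝ
      * ⟪(H772R2.NS.Pub.e r.2 : H772R2.NS.E3), (v : H772R2.NS.E3)⟫_ℝ = _
    rw [inner_e, inner_e]
  show -⟪(A : H772R2.NS.M3), (outer (show R3 from v) : H772R2.NS.M3)⟫_ℝ = Qf A v
  rw [h, H772R2.NS.inner_M3]
  rfl

section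

variable {Ω : Set H772R2.NS.E3}

theorem slow_int {c ν β : ℝ} {U : H772R2.NS.L2V Ω}
    (h : SlowRegions (Ω := (show Set R3 from Ω)) c ν β U) :
    ∃ r m : ℝ, 0 < r ∧ 0 ≤ m ∧ m ^ 2 / ν + ν / r ^ 2 ≤ β ∧ ∀ y : H772R2.NS.E3,
      ∃ a : H772R2.NS.E3, ∀ l : ℝ, 0 < l →
      m ≤ l → volume {x : H772R2.NS.E3 | ‖x - y‖ < r ∧ l < ‖ext Ω U x - a‖}
        ≤ ENNReal.ofReal ((c * ν / l) ^ 3) := h

theorem weak_int {c ν β : ℝ} {G : H772R2.NS.L2M Ω}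
    (h : WeakCompression (Ω := (show Set R3 from Ω)) c ν β G) :
    ∃ r m : ℝ, 0 < r ∧ 0 ≤ m ∧ m + ν / r ^ 2 ≤ β ∧ ∀ (y : H772R2.NS.E3) (l : ℝ), 0 < l →
      m ≤ l → volume {x : H772R2.NS.E3 | x ∈ Ω ∧ ‖x - y‖ < r ∧
        ∃ e : H772R2.NS.E3, l * ‖e‖ ^ 2 < Qf (G x) e}
        ≤ ENNReal.ofReal ((c * ν / l) ^ (3 / 2 : ℝ)) := by
  obtain ⟨r, m, hr, hm, hβ, h⟩ := h
  refine ⟨r, m, hr, hm, hβ, fun y l hl hml => ?_⟩
  refine (measure_mono ?_).trans (h y l hl hml)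
  rintro x ⟨h1, h2, e, h3⟩
  refine ⟨h1, h2, e, ?_⟩
  rw [← outer_eq] at h3
  exact h3

end

/-- the form inequality, public form -/
theorem pub_form : ∃ c K : ℝ, 0 < c ∧ 1 ≤ K ∧ ∀ (Ω : Set R3), IsOpen Ω →
    Bornology.IsBounded Ω → ∀ ν β : ℝ, 0 < ν → ∀ (U : L2 Ω R3) (G : L2 Ω Mat),
    (U, G) ∈ H1graph Ω → (SlowRegions c ν β U ∨ WeakCompression c ν β G) →
    ∀ p ∈ H1graph Ω, -stretch G p.1 ≤ 1 / 2 * ν * ‖p.2‖ ^ 2 + K * β * ‖p.1‖ ^ 2 := by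
  obtain ⟨c1, K, hc1, hK, h1⟩ := speed_graph
  obtain ⟨c2, hc2, h2⟩ := rate_graph
  refine ⟨min c1 c2, max K 1, lt_min hc1 hc2, le_max_right _ _, ?_⟩
  intro Ω hΩ hb ν β hν U G hU hyp p hp
  have hm : MeasurableSet (show Set H772R2.NS.E3 from Ω) :=
    IsOpen.measurableSet (α := H772R2.NS.E3) hΩ
  have hc0 : 0 < min c1 c2 := lt_min hc1 hc2
  rw [stretch_tens hm G hp]
  rcases hyp with hyp | hyp
  · have hβ : 0 ≤ β := by
      obtain ⟨r, m, hr, hm, hβ, -⟩ := hyp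
      exact le_trans (by positivity) hβ
    refine (h1 _ hc0 (min_le_left _ _) (show Set H772R2.NS.E3 from Ω) hΩ hb ν β hν U G
      (mem_pub.mpr hU) (slow_int (Ω := (show Set H772R2.NS.E3 from Ω)) hyp) p
      (mem_pub.mpr hp)).trans ?_
    have : K * β * ‖p.1‖ ^ 2 ≤ max K 1 * β * ‖p.1‖ ^ 2 := by
      gcongr
      exact le_max_left _ _
    have h3 : (1 / 2 * ν * ‖p.2‖ ^ 2 + K * β * ‖p.1‖ ^ 2 : ℝ)
        ≤ 1 / 2 * ν * ‖p.2‖ ^ 2 + max K 1 * β * ‖p.1‖ ^ 2 := by linarith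
    exact h3
  · have hβ : 0 ≤ β := by
      obtain ⟨r, m, hr, hm, hβ, -⟩ := hyp
      exact le_trans (by positivity) hβ
    refine (h2 _ hc0 (min_le_right _ _) (show Set H772R2.NS.E3 from Ω) hΩ ν β hν G
      (weak_int (Ω := (show Set H772R2.NS.E3 from Ω)) hyp) p (mem_pub.mpr hp)).trans ?_
    have : 1 * β * ‖p.1‖ ^ 2 ≤ max K 1 * β * ‖p.1‖ ^ 2 := by
      gcongr
      exact le_max_right _ _
    have h3 : (1 / 2 * ν * ‖p.2‖ ^ 2 + β * ‖p.1‖ ^ 2 : ℝ)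
        ≤ 1 / 2 * ν * ‖p.2‖ ^ 2 + max K 1 * β * ‖p.1‖ ^ 2 := by linarith
    exact h3

/-- The instability criterion, with the growth rate prescribed only near the singular time. -/
theorem crit (Ω : Set R3) (hΩ : IsOpen Ω) (hb : Bornology.IsBounded Ω) (ν T : ℝ) (hν : 0 < ν)
    (hT : 0 < T) (F F' : ℝ → L2 Ω Mat) (hF : IsH1 T F F')
    (u : ℝ → L2 Ω R3) (G : ℝ → L2 Ω Mat) (L : IsLerayHopf Ω ν T F u G)
    (z0 : L2 Ω Mat) (h0 : (u 0, z0) ∈ H1graph Ω)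
    (hg : ∃ g : L2 Ω R3, ∀ φ, IsTest Ω φ → rhs ν (u 0) z0 (F 0) φ = ∫ x in Ω, ⟪g.fn x, φ x⟫_ℝ) :
    (∃ u' G1 G', IsStrong Ω ν T F u u' G1 G') ∨
    ∃ τ ∈ Ioc 0 T, (∀ t ∈ Ioo 0 τ, ∃ u' G1 G', IsStrong Ω ν t F u u' G1 G') ∧
      ∀ δ : ℝ, 0 < δ → δ < 1 → ∀ s ∈ Ico 0 τ, ∃ M : ℝ, ∀ β : ℝ → ℝ,
        (∀ t, 0 ≤ β t) → (∀ t ∈ Ioo s τ, IntervalIntegrable β volume s t) →
        (∀ᵐ t ∂(volume.restrict (Ioo s τ)), (u t, G t) ∈ H1graph Ω → ∀ p ∈ H1graph Ω,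
          -stretch (G t) p.1 ≤ (1 - δ) * ν * ‖p.2‖ ^ 2 + β t * ‖p.1‖ ^ 2) →
        ∀ t0 < τ, ∃ t ∈ Ioo t0 τ, s < t ∧
          3 / 4 * Real.log (1 / (τ - t)) - M ≤ ∫ r in s..t, β r := by
  rcases Pool.Agent.Results.MP_fd8964_an.EnergyStability.result Ω hΩ hb ν T hν hT F F' hF u G L
    z0 h0 hg with h1 | ⟨τ, hτ, h1, h2⟩
  · exact Or.inl h1
  refine Or.inr ⟨τ, hτ, h1, fun δ hδ0 hδ1 s hs => ?_⟩
  have hm : MeasurableSet (show Set H772R2.NS.E3 from Ω) :=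
    IsOpen.measurableSet (α := H772R2.NS.E3) hΩ
  have hgT : ∀ᵐ t ∂(volume.restrict (Ioc 0 τ)), (u t, G t) ∈ H1graph Ω := by
    have := L.grad
    exact ae_mono (Measure.restrict_mono (Ioc_subset_Ioc_right hτ.2) le_rfl) this
  -- the bound before the time `s`
  obtain ⟨Cs, hCs0, hCs⟩ : ∃ C : ℝ, 0 ≤ C ∧ ∀ᵐ t ∂(volume.restrict (Ioc 0 s)), ∀ p ∈ H1graph Ω,
      -stretch (G t) p.1 ≤ (1 - δ) * ν * ‖p.2‖ ^ 2 + C * ‖p.1‖ ^ 2 := by
    rcases eq_or_lt_of_le hs.1 with h3 | h3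
    · refine ⟨0, le_rfl, ?_⟩
      rw [← h3]
      simp
    · obtain ⟨u', G1, G', hst⟩ := h1 s ⟨h3, hs.2⟩
      obtain ⟨M₁, hM₁⟩ := grad_bdd hΩ hst
        (ae_mono (Measure.restrict_mono (Ioc_subset_Ioc_right hs.2.le) le_rfl) hgT)
      obtain ⟨C, hC, hC2⟩ := grad_form (Ω := (show Set H772R2.NS.E3 from Ω)) hm (M := M₁)
        (ε := (1 - δ) * ν) (by
          have : 0 < 1 - δ := by linarith
          positivity)
      refine ⟨C, hC, ?_⟩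
      filter_upwards [hM₁] with t ht p hp
      rw [stretch_tens hm (G t) hp]
      exact hC2 (G t) ht p (mem_pub.mpr hp)
  obtain ⟨Mc, hMc⟩ := h2 0 (fun j => j.elim0) (fun j => j.elim0) δ hδ0 s hs
  refine ⟨Mc, fun β hβ0 hβi hyp t0 ht0 => ?_⟩
  set Λ : ℝ → ℝ := fun t => if t ≤ s then Cs else β t with hΛ
  have hΛ0 : ∀ t, 0 ≤ Λ t := fun t => by
    simp only [hΛ]
    split_ifs
    · exact hCs0
    · exact hβ0 t
  have hΛs : ∀ t, s ≤ t → EqOn β Λ (Ioc s t) := fun t _ r hr => by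
    simp only [hΛ]
    rw [if_neg (not_le.2 hr.1)]
  have hΛi : ∀ t ∈ Ioo 0 τ, IntervalIntegrable Λ volume 0 t := by
    intro t ht
    have i1 : ∀ a b, a ≤ b → b ≤ s → IntervalIntegrable Λ volume a b := fun a b hab hb => by
      have : IntervalIntegrable (fun _ : ℝ => Cs) volume a b := intervalIntegrable_const
      refine this.congr fun r hr => ?_
      rw [uIoc_of_le hab] at hr
      simp only [hΛ]
      rw [if_pos (hr.2.trans hb)]
    rcases le_or_gt t s with h3 | h3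
    · exact i1 0 t ht.1.le h3
    · refine (i1 0 s hs.1 le_rfl).trans ?_
      refine (hβi t ⟨h3, ht.2⟩).congr fun r hr => ?_
      rw [uIoc_of_le h3.le] at hr
      exact hΛs t h3.le hr
  obtain ⟨t, ht, hst, hlog⟩ := hMc Λ hΛ0 hΛi (by
    have a1 : ∀ᵐ t ∂(volume : Measure ℝ), t ∈ Ioc 0 s → ∀ p ∈ H1graph Ω,
        -stretch (G t) p.1 ≤ (1 - δ) * ν * ‖p.2‖ ^ 2 + Cs * ‖p.1‖ ^ 2 :=
      (ae_restrict_iff' measurableSet_Ioc).1 hCs
    have a2 : ∀ᵐ t ∂(volume : Measure ℝ), t ∈ Ioo s τ → (u t, G t) ∈ H1graph Ω →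
        ∀ p ∈ H1graph Ω, -stretch (G t) p.1 ≤ (1 - δ) * ν * ‖p.2‖ ^ 2 + β t * ‖p.1‖ ^ 2 :=
      (ae_restrict_iff' measurableSet_Ioo).1 hyp
    have a3 : ∀ᵐ t ∂(volume : Measure ℝ), t ≠ τ := by simp [ae_iff, measure_singleton]
    have a4 : ∀ᵐ t ∂(volume : Measure ℝ), t ∈ Ioc 0 τ → (u t, G t) ∈ H1graph Ω :=
      (ae_restrict_iff' measurableSet_Ioc).1 hgT
    rw [ae_restrict_iff' measurableSet_Ioc]
    filter_upwards [a1, a2, a3, a4] with t b1 b2 b3 b4 ht p hp _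
    by_cases hts : t ≤ s
    · have e1 : Λ t = Cs := by simp only [hΛ]; rw [if_pos hts]
      rw [e1]
      exact b1 ⟨ht.1, hts⟩ p hp
    · have e1 : Λ t = β t := by simp only [hΛ]; rw [if_neg hts]
      rw [e1]
      exact b2 ⟨not_le.1 hts, lt_of_le_of_ne ht.2 b3⟩ (b4 ht) p hp) t0 ht0
  refine ⟨t, ht, hst, hlog.trans (le_of_eq ?_)⟩
  refine intervalIntegral.integral_congr_ae ?_
  refine Eventually.of_forall fun r hr => ?_
  rw [uIoc_of_le hst.le] at hr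
  exact (hΛs t hst.le hr).symm

/-- no criterion of this kind can hold with a small multiple of `1 / (τ - t)` -/
theorem no_small {τ k : ℝ} (hτ : 0 < τ) {P : ℝ → ℝ → Prop}
    (H : ∀ s ∈ Ico 0 τ, ∃ M : ℝ, ∀ β : ℝ → ℝ,
        (∀ t, 0 ≤ β t) → (∀ t ∈ Ioo s τ, IntervalIntegrable β volume s t) →
        (∀ᵐ t ∂(volume.restrict (Ioo s τ)), P (β t) t) →
        ∀ t0 < τ, ∃ t ∈ Ioo t0 τ, s < t ∧
          k * Real.log (1 / (τ - t)) - M ≤ ∫ r in s..t, β r)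
    {γ t1 : ℝ} (hγ0 : 0 ≤ γ) (hγk : γ < k) (ht1 : t1 < τ)
    (hyp : ∀ᵐ t ∂(volume.restrict (Ioo t1 τ)), P (γ / (τ - t)) t) : False := by
  set s := max t1 0 with hs
  have hsτ : s < τ := max_lt ht1 hτ
  have hs0 : 0 ≤ s := le_max_right _ _
  obtain ⟨M, hM⟩ := H s ⟨hs0, hsτ⟩
  set β : ℝ → ℝ := fun t => γ / |τ - t| with hβ
  have hβc : ∀ t ∈ Ioo s τ, ContinuousOn β (uIcc s t) := by
    intro t ht
    rw [uIcc_of_le ht.1.le]
    refine continuousOn_const.div (continuous_const.sub continuous_id).abs.continuousOn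
      fun r hr => ?_
    have : 0 < τ - r := by linarith [hr.2, ht.2]
    exact abs_ne_zero.2 this.ne'
  have h1 := hM β (fun t => by simp only [hβ]; positivity)
    (fun t ht => (hβc t ht).intervalIntegrable) (by
      have h2 : ∀ᵐ t ∂(volume.restrict (Ioo s τ)), P (γ / (τ - t)) t :=
        ae_mono (Measure.restrict_mono (Ioo_subset_Ioo_left (le_max_left _ _)) le_rfl) hyp
      filter_upwards [h2, ae_restrict_mem measurableSet_Ioo] with t ht htI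
      have hp : 0 < τ - t := by linarith [htI.2]
      simp only [hβ]
      rw [abs_of_pos hp]
      exact ht)
  -- the integral of `β`
  have hint : ∀ t ∈ Ioo s τ, ∫ r in s..t, β r
      = γ * (Real.log (1 / (τ - t)) - Real.log (1 / (τ - s))) := by
    intro t ht
    have hder : ∀ r ∈ uIcc s t, HasDerivAt (fun r => γ * Real.log (1 / (τ - r))) (β r) r := by
      intro r hr
      rw [uIcc_of_le ht.1.le] at hr
      have hp : 0 < τ - r := by linarith [hr.2, ht.2]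
      have e1 : (fun r => γ * Real.log (1 / (τ - r))) = fun r => γ * -Real.log (τ - r) := by
        funext r
        rw [one_div, Real.log_inv]
      rw [e1]
      refine (((((hasDerivAt_id r).const_sub τ).log hp.ne').neg).const_mul γ).congr_deriv ?_
      simp only [hβ]
      rw [abs_of_pos hp]
      simp only [id]
      ring
    rw [intervalIntegral.integral_eq_sub_of_hasDerivAt hder (hβc t ht).intervalIntegrable]
    ring
  -- a time at which the logarithm is large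
  set A := (|M| + γ * |Real.log (1 / (τ - s))| + 1) / (k - γ) with hA
  have hgp : 0 < k - γ := by linarith
  obtain ⟨t, ht, hst, hle⟩ := h1 (τ - Real.exp (-A)) (by linarith [Real.exp_pos (-A)])
  rw [hint t ⟨hst, ht.2⟩] at hle
  have hp : 0 < τ - t := by linarith [ht.2]
  have h3 : A < Real.log (1 / (τ - t)) := by
    rw [one_div, Real.log_inv, lt_neg, Real.log_lt_iff_lt_exp hp]
    linarith [ht.1]
  have h4 : (k - γ) * A = |M| + γ * |Real.log (1 / (τ - s))| + 1 := by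
    rw [hA, mul_comm, div_mul_cancel₀ _ hgp.ne']
  have h5 : (k - γ) * A < (k - γ) * Real.log (1 / (τ - t)) := mul_lt_mul_of_pos_left h3 hgp
  have h6 := le_abs_self M
  have h7 : -(γ * Real.log (1 / (τ - s))) ≤ γ * |Real.log (1 / (τ - s))| := by
    rw [← mul_neg]
    exact mul_le_mul_of_nonneg_left (neg_le_abs _) hγ0
  nlinarith

/-- the conclusion -/
def Concl (c k K : ℝ) {Ω : Set R3} (ν τ : ℝ) (u : ℝ → L2 Ω R3) (G : ℝ → L2 Ω Mat) : Prop :=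
  (∀ s ∈ Ico 0 τ, ∃ M : ℝ, ∀ β : ℝ → ℝ,
        (∀ t, 0 ≤ β t) → (∀ t ∈ Ioo s τ, IntervalIntegrable β volume s t) →
        (∀ᵐ t ∂(volume.restrict (Ioo s τ)),
          SlowRegions c ν (β t) (u t) ∨ WeakCompression c ν (β t) (G t)) →
        ∀ t0 < τ, ∃ t ∈ Ioo t0 τ, s < t ∧
          k * Real.log (1 / (τ - t)) - M ≤ ∫ r in s..t, β r) ∧
  ∀ t1 < τ, 0 < volume {t : ℝ | t ∈ Ioo t1 τ ∧
    (∃ y : R3, ∀ a : R3, ∃ l : ℝ, Real.sqrt (ν / (τ - t)) / K ≤ l ∧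
      ENNReal.ofReal ((c * ν / l) ^ 3)
        < (volume : Measure R3) (fast (u t) y (K * Real.sqrt (ν * (τ - t))) a l)) ∧
    (∃ (y : R3) (l : ℝ), 1 / (K ^ 2 * (τ - t)) ≤ l ∧
      ENNReal.ofReal ((c * ν / l) ^ (3 / 2 : ℝ))
        < (volume : Measure R3) (squeezed (G t) y (K * Real.sqrt (ν * (τ - t))) l))}

theorem final : ∃ c k K : ℝ, 0 < c ∧ 0 < k ∧ 0 < K ∧
    ∀ (Ω : Set R3), IsOpen Ω → Bornology.IsBounded Ω → ∀ (ν T : ℝ), 0 < ν → 0 < T →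
    ∀ (F F' : ℝ → L2 Ω Mat), IsH1 T F F' →
    ∀ (u : ℝ → L2 Ω R3) (G : ℝ → L2 Ω Mat), IsLerayHopf Ω ν T F u G →
    ∀ z0 : L2 Ω Mat, (u 0, z0) ∈ H1graph Ω →
    (∃ g : L2 Ω R3, ∀ φ, IsTest Ω φ → rhs ν (u 0) z0 (F 0) φ = ∫ x in Ω, ⟪g.fn x, φ x⟫_ℝ) →
    (∃ u' G1 G', IsStrong Ω ν T F u u' G1 G') ∨
    ∃ τ ∈ Ioc 0 T, (∀ t ∈ Ioo 0 τ, ∃ u' G1 G', IsStrong Ω ν t F u u' G1 G') ∧
      Concl c k K ν τ u G := by
  obtain ⟨c, K0, hc, hK0, hform⟩ := pub_form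
  set k : ℝ := 3 / (4 * K0) with hk
  have hK0' : 0 < K0 := by linarith
  have hk0 : 0 < k := by positivity
  set K : ℝ := Real.sqrt (4 / k) with hK
  have hKp : 0 < K := Real.sqrt_pos.2 (by positivity)
  have hK2 : K ^ 2 = 4 / k := Real.sq_sqrt (by positivity)
  refine ⟨c, k, K, hc, hk0, hKp, ?_⟩
  intro Ω hΩ hb ν T hν hT F F' hF u G L z0 h0 hg
  rcases crit Ω hΩ hb ν T hν hT F F' hF u G L z0 h0 hg with h1 | ⟨τ, hτ, h1, h2⟩
  · exact Or.inl h1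
  refine Or.inr ⟨τ, hτ, h1, ?_⟩
  have H : ∀ s ∈ Ico 0 τ, ∃ M : ℝ, ∀ β : ℝ → ℝ,
        (∀ t, 0 ≤ β t) → (∀ t ∈ Ioo s τ, IntervalIntegrable β volume s t) →
        (∀ᵐ t ∂(volume.restrict (Ioo s τ)),
          SlowRegions c ν (β t) (u t) ∨ WeakCompression c ν (β t) (G t)) →
        ∀ t0 < τ, ∃ t ∈ Ioo t0 τ, s < t ∧
          k * Real.log (1 / (τ - t)) - M ≤ ∫ r in s..t, β r := by
    intro s hs
    obtain ⟨M, hM⟩ := h2 (1 / 2) (by norm_num) (by norm_num) s hs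
    refine ⟨M / K0, fun β hβ0 hβi hyp t0 ht0 => ?_⟩
    obtain ⟨t, ht, hst, hlog⟩ := hM (fun t => K0 * β t) (fun t => mul_nonneg hK0'.le (hβ0 t))
      (fun t ht => (hβi t ht).const_mul K0) (by
        filter_upwards [hyp] with t ht hmem p hp
        have h5 := hform Ω hΩ hb ν (β t) hν (u t) (G t) hmem ht p hp
        refine h5.trans (le_of_eq ?_)
        ring) t0 ht0
    refine ⟨t, ht, hst, ?_⟩
    rw [intervalIntegral.integral_const_mul] at hlog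
    have e1 : k * Real.log (1 / (τ - t)) - M / K0
        = (3 / 4 * Real.log (1 / (τ - t)) - M) / K0 := by
      rw [hk]
      field_simp
    rw [e1, div_le_iff₀ hK0']
    linarith
  refine ⟨H, fun t1 ht1 => ?_⟩
  by_contra hcon
  have hnull := nonpos_iff_eq_zero.1 (not_lt.1 hcon)
  refine no_small (P := fun b t => SlowRegions c ν b (u t) ∨ WeakCompression c ν b (G t))
    hτ.1 H (γ := k / 2) (by positivity) (by linarith) ht1 ?_
  rw [ae_restrict_iff' measurableSet_Ioo, ae_iff]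
  refine measure_mono_null (fun t ht => ?_) hnull
  have ht' : ¬ (t ∈ Ioo t1 τ → SlowRegions c ν (k / 2 / (τ - t)) (u t) ∨
    WeakCompression c ν (k / 2 / (τ - t)) (G t)) := ht
  rw [Classical.not_imp, not_or] at ht'
  obtain ⟨htI, hA, hB⟩ := ht'
  have hp : 0 < τ - t := by linarith [htI.2]
  have hr : 0 < K * Real.sqrt (ν * (τ - t)) := by positivity
  have hsq1 : (K * Real.sqrt (ν * (τ - t))) ^ 2 = K ^ 2 * (ν * (τ - t)) := by
    rw [mul_pow, Real.sq_sqrt (show 0 ≤ ν * (τ - t) by positivity)]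
  have hsq2 : (Real.sqrt (ν / (τ - t)) / K) ^ 2 = ν / (τ - t) / K ^ 2 := by
    rw [div_pow, Real.sq_sqrt (show 0 ≤ ν / (τ - t) by positivity)]
  have e2 : ν / (K ^ 2 * (ν * (τ - t))) = k / 4 / (τ - t) := by
    rw [hK2]
    have hne : τ - t ≠ 0 := hp.ne'
    have hkne : k ≠ 0 := hk0.ne'
    clear_value k
    field_simp
  refine ⟨htI, ?_, ?_⟩
  · by_contra hcon2
    push Not at hcon2
    refine hA ⟨K * Real.sqrt (ν * (τ - t)), Real.sqrt (ν / (τ - t)) / K, hr, by positivity, ?_, ?_⟩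
    · rw [hsq1, hsq2, e2, hK2]
      refine le_of_eq ?_
      field_simp
      norm_num
    · intro y
      obtain ⟨a, ha⟩ := hcon2 y
      exact ⟨a, fun l _ hl => ha l hl⟩
  · by_contra hcon2
    push Not at hcon2
    refine hB ⟨K * Real.sqrt (ν * (τ - t)), 1 / (K ^ 2 * (τ - t)), hr, by positivity, ?_, ?_⟩
    · rw [hsq1, e2, hK2]
      refine le_of_eq ?_
      field_simp
      norm_num
    · intro y l _ hl
      exact hcon2 y l hl

end Q85.CR
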