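import Mathlib

/-!
Multipliers in weak `L³`: `∫ g² w² ≤ C κ² ∫ |∇w|²` if `|{g > l}| ≤ (κ / l)³` for all `l > 0`
(truncation method of Maz'ya).
-/

set_option autoImplicit false

open MeasureTheory Set Filter Topology
open scoped ENNReal NNReal ContDiff

namespace Q85.CR

/-- Euclidean space -/
abbrev E : Type := EuclideanSpace ℝ (Fin 3)

theorem sobolev : ∃ S : ℝ≥0, ∀ w : E → ℝ, ContDiff ℝ 1 w → HasCompactSupport w →
    (∫⁻ x, ‖w x‖ₑ ^ 6) ≤ (S * ∫⁻ x, ‖fderiv ℝ w x‖ₑ ^ 2) ^ 3 := by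
  refine ⟨eLpNormLESNormFDerivOfEqInnerConst (volume : Measure E) 2 ^ 2, fun w hw hc => ?_⟩
  have h := eLpNorm_le_eLpNorm_fderiv_of_eq_inner (volume : Measure E) hw hc (p := 2) (p' := 6)
    (by norm_num) (by simp) (by simp; norm_num)
  set C := eLpNormLESNormFDerivOfEqInnerConst (volume : Measure E) 2 with hC
  have h6 : ∫⁻ x, ‖w x‖ₑ ^ 6 = eLpNorm w 6 volume ^ 6 := by
    rw [eLpNorm_eq_lintegral_rpow_enorm_toReal (by norm_num) (by norm_num)]
    simp only [ENNReal.toReal_ofNat]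
    rw [← ENNReal.rpow_natCast, ← ENNReal.rpow_mul]
    norm_num
  have h2 : ∫⁻ x, ‖fderiv ℝ w x‖ₑ ^ 2 = eLpNorm (fderiv ℝ w) 2 volume ^ 2 := by
    rw [eLpNorm_eq_lintegral_rpow_enorm_toReal (by norm_num) (by norm_num)]
    simp only [ENNReal.toReal_ofNat]
    rw [← ENNReal.rpow_natCast, ← ENNReal.rpow_mul]
    norm_num
  rw [h6, h2]
  have h' : eLpNorm w 6 volume ≤ C * eLpNorm (fderiv ℝ w) 2 volume := h
  calc eLpNorm w 6 volume ^ 6 ≤ (C * eLpNorm (fderiv ℝ w) 2 volume) ^ 6 := by gcongr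
    _ = (((C ^ 2 : ℝ≥0) : ℝ≥0∞) * eLpNorm (fderiv ℝ w) 2 volume ^ 2) ^ 3 := by
        push_cast; ring

/-- the smooth truncation -/
noncomputable def Th (s : ℝ) : ℝ := Real.smoothTransition ((4 * s ^ 2 - 1) / 3)

theorem Th_contDiff : ContDiff ℝ ∞ Th := by
  unfold Th
  exact Real.smoothTransition.contDiff.comp (by fun_prop)

theorem Th_zero {s : ℝ} (h : |s| ≤ 1 / 2) : Th s = 0 := by
  unfold Th
  refine Real.smoothTransition.zero_of_nonpos ?_
  have : s ^ 2 ≤ (1 / 2) ^ 2 := by rw [← sq_abs s]; gcongr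
  linarith

theorem Th_one {s : ℝ} (h : 1 ≤ |s|) : Th s = 1 := by
  unfold Th
  refine Real.smoothTransition.one_of_one_le ?_
  have : (1 : ℝ) ^ 2 ≤ s ^ 2 := by rw [← sq_abs s]; gcongr
  linarith

theorem Th_deriv_cont : Continuous (deriv Th) :=
  Th_contDiff.continuous_deriv (by simp)

theorem Th_deriv_zero {s : ℝ} (h : ¬ (1 / 2 < |s| ∧ |s| ≤ 1)) : deriv Th s = 0 := by
  have hcl : IsClosed {s : ℝ | deriv Th s = 0} := isClosed_eq Th_deriv_cont continuous_const
  have h1 : ∀ s : ℝ, |s| < 1 / 2 → deriv Th s = 0 := by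
    intro s hs
    have : Th =ᶠ[𝓝 s] fun _ => 0 := by
      filter_upwards [(continuous_abs.tendsto s).eventually_lt_const hs] with x hx
      exact Th_zero hx.le
    rw [this.deriv_eq]
    simp
  have h2 : ∀ s : ℝ, 1 < |s| → deriv Th s = 0 := by
    intro s hs
    have : Th =ᶠ[𝓝 s] fun _ => 1 := by
      filter_upwards [(continuous_abs.tendsto s).eventually_const_lt hs] with x hx
      exact Th_one hx.le
    rw [this.deriv_eq]
    simp
  by_cases hs : |s| ≤ 1 / 2
  · have h3 : Metric.closedBall (0 : ℝ) (1 / 2) ⊆ {s : ℝ | deriv Th s = 0} := by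
      rw [← closure_ball (0 : ℝ) (by norm_num : (1 / 2 : ℝ) ≠ 0)]
      refine hcl.closure_subset_iff.2 fun x hx => h1 x ?_
      simpa using hx
    exact h3 (by simpa using hs)
  · push Not at hs h
    exact h2 s (h hs)

theorem Th_deriv_bdd : ∃ L : ℝ, 0 ≤ L ∧ ∀ s, |deriv Th s| ≤ L := by
  obtain ⟨M, hM⟩ := (isCompact_closedBall (0 : ℝ) 1).exists_bound_of_continuousOn
    Th_deriv_cont.continuousOn
  refine ⟨|M|, abs_nonneg _, fun s => ?_⟩
  by_cases hs : |s| ≤ 1
  · exact (hM s (by simpa using hs)).trans (le_abs_self M)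
  · rw [Th_deriv_zero (fun h => hs h.2)]
    simp

/-- `∫_A g² ≤ 3 κ² |A|^(1/3)` -/
theorem int_sq_le {g : E → ℝ} (hg : Measurable g) (hg0 : ∀ x, 0 ≤ g x) {κ : ℝ} (hκ : 0 < κ)
    (hw : ∀ l : ℝ, 0 < l → volume {x | l < g x} ≤ ENNReal.ofReal ((κ / l) ^ 3))
    {A : Set E} {e : ℝ} (he : 0 < e)
    (hAe : volume A ≤ ENNReal.ofReal (e ^ 3)) :
    ∫⁻ x in A, ENNReal.ofReal (g x ^ 2) ≤ ENNReal.ofReal (3 * κ ^ 2 * e) := by
  have h1 := lintegral_rpow_eq_lintegral_meas_lt_mul (volume.restrict A)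
    (Eventually.of_forall hg0) hg.aemeasurable (p := 2) (by norm_num)
  have e1 : ∫⁻ x in A, ENNReal.ofReal (g x ^ 2) = ∫⁻ x in A, ENNReal.ofReal (g x ^ (2 : ℝ)) := by
    refine lintegral_congr fun x => ?_
    norm_num
  rw [e1, h1]
  set Λ : ℝ := κ / e with hΛ
  have hΛ0 : 0 < Λ := by positivity
  have hsplit : Ioi (0 : ℝ) = Ioc 0 Λ ∪ Ioi Λ := (Ioc_union_Ioi_eq_Ioi hΛ0.le).symm
  have hb1 : ∫⁻ t in Ioc 0 Λ, (volume.restrict A) {a | t < g a} * ENNReal.ofReal (t ^ ((2 : ℝ) - 1))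
      ≤ ENNReal.ofReal (κ ^ 2 * e / 2) := by
    calc ∫⁻ t in Ioc 0 Λ, (volume.restrict A) {a | t < g a} * ENNReal.ofReal (t ^ ((2 : ℝ) - 1))
        ≤ ∫⁻ t in Ioc 0 Λ, ENNReal.ofReal (e ^ 3) * ENNReal.ofReal t := by
          refine lintegral_mono fun t => ?_
          refine mul_le_mul' ?_ (by norm_num)
          calc (volume.restrict A) {a | t < g a} ≤ (volume.restrict A) univ := measure_mono (subset_univ _)
            _ = volume A := by rw [Measure.restrict_apply_univ]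
            _ ≤ _ := hAe
      _ = ENNReal.ofReal (e ^ 3) * ENNReal.ofReal (∫ t in Ioc 0 Λ, t) := by
          rw [lintegral_const_mul _ (by fun_prop), ofReal_integral_eq_lintegral_ofReal]
          · exact (continuous_id.integrableOn_Icc).mono_set Ioc_subset_Icc_self
          · filter_upwards [ae_restrict_mem measurableSet_Ioc] with t ht
            exact ht.1.le
      _ = ENNReal.ofReal (κ ^ 2 * e / 2) := by
          rw [← intervalIntegral.integral_of_le hΛ0.le, integral_id,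
            ← ENNReal.ofReal_mul (by positivity)]
          congr 1
          rw [hΛ]
          field_simp
          ring
  have hb2 : ∫⁻ t in Ioi Λ, (volume.restrict A) {a | t < g a} * ENNReal.ofReal (t ^ ((2 : ℝ) - 1))
      ≤ ENNReal.ofReal (κ ^ 2 * e) := by
    calc ∫⁻ t in Ioi Λ, (volume.restrict A) {a | t < g a} * ENNReal.ofReal (t ^ ((2 : ℝ) - 1))
        ≤ ∫⁻ t in Ioi Λ, ENNReal.ofReal (κ ^ 3 * t ^ (-2 : ℝ)) := by
          refine lintegral_mono_ae ?_
          filter_upwards [ae_restrict_mem measurableSet_Ioi] with t ht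
          have ht0 : 0 < t := hΛ0.trans ht
          calc (volume.restrict A) {a | t < g a} * ENNReal.ofReal (t ^ ((2 : ℝ) - 1))
              ≤ ENNReal.ofReal ((κ / t) ^ 3) * ENNReal.ofReal (t ^ ((2 : ℝ) - 1)) := by
                gcongr
                exact (Measure.restrict_apply_le _ _).trans (hw t ht0)
            _ = ENNReal.ofReal (κ ^ 3 * t ^ (-2 : ℝ)) := by
                rw [← ENNReal.ofReal_mul (by positivity)]
                congr 1
                have : t ^ (-2 : ℝ) = (t ^ 2)⁻¹ := by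
                  rw [Real.rpow_neg ht0.le]; norm_num
                rw [this]
                norm_num
                field_simp
      _ = ENNReal.ofReal (∫ t in Ioi Λ, κ ^ 3 * t ^ (-2 : ℝ)) := by
          rw [ofReal_integral_eq_lintegral_ofReal]
          · exact (integrableOn_Ioi_rpow_of_lt (by norm_num) hΛ0).const_mul _
          · filter_upwards [ae_restrict_mem measurableSet_Ioi] with t ht
            have ht0 : 0 < t := hΛ0.trans ht
            show 0 ≤ κ ^ 3 * t ^ (-2 : ℝ)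
            positivity
      _ = ENNReal.ofReal (κ ^ 2 * e) := by
          rw [integral_const_mul, integral_Ioi_rpow_of_lt (by norm_num) hΛ0]
          congr 1
          have : Λ ^ ((-2 : ℝ) + 1) = Λ⁻¹ := by norm_num [Real.rpow_neg_one]
          rw [this, hΛ]
          field_simp
          norm_num
  rw [hsplit, lintegral_union measurableSet_Ioi Ioc_disjoint_Ioi_same]
  calc ENNReal.ofReal 2 * (_ + _) ≤ ENNReal.ofReal 2 *
        (ENNReal.ofReal (κ ^ 2 * e / 2) + ENNReal.ofReal (κ ^ 2 * e)) := by gcongr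
    _ = ENNReal.ofReal (3 * κ ^ 2 * e) := by
        rw [← ENNReal.ofReal_add (by positivity) (by positivity), ← ENNReal.ofReal_mul (by norm_num)]
        congr 1
        ring

theorem four_zpow (k : ℤ) : (4 : ℝ) ^ k = ((2 : ℝ) ^ k) ^ 2 := by
  rw [← zpow_natCast, ← zpow_mul, mul_comm, zpow_mul]
  norm_num

/-- **Weak `L³` functions are multipliers from `H¹` to `L²`.** -/
theorem weak_mult : ∃ C : ℝ, 0 < C ∧ ∀ (g : E → ℝ), Measurable g → (∀ x, 0 ≤ g x) →
    ∀ κ : ℝ, 0 < κ →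
    (∀ l : ℝ, 0 < l → volume {x | l < g x} ≤ ENNReal.ofReal ((κ / l) ^ 3)) →
    ∀ w : E → ℝ, ContDiff ℝ ∞ w → HasCompactSupport w →
    ∫⁻ x, ENNReal.ofReal (g x ^ 2) * ‖w x‖ₑ ^ 2
      ≤ ENNReal.ofReal (C * κ ^ 2) * ∫⁻ x, ‖fderiv ℝ w x‖ₑ ^ 2 := by
  obtain ⟨S, hS⟩ := sobolev
  obtain ⟨L, hL0, hL⟩ := Th_deriv_bdd
  refine ⟨3 * 4 * S * L ^ 2 + 1, by positivity, fun g hg hg0 κ hκ hw w hwc hcs => ?_⟩
  set A : ℤ → Set E := fun k => {x | |w x| ∈ Ioc ((2 : ℝ) ^ k) ((2 : ℝ) ^ (k + 1))} with hA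
  have hwm : Measurable w := hwc.continuous.measurable
  have hAm : ∀ k, MeasurableSet (A k) := fun k => (measurable_norm.comp hwm) measurableSet_Ioc
  have hAd : Pairwise (fun i j => Disjoint (A i) (A j)) := by
    have h1 : Pairwise (fun i j : ℤ => Disjoint (Ioc ((2 : ℝ) ^ i) ((2 : ℝ) ^ (i + 1)))
        (Ioc ((2 : ℝ) ^ j) ((2 : ℝ) ^ (j + 1)))) := by
      have hmono : Monotone (fun k : ℤ => (2 : ℝ) ^ k) := zpow_right_mono₀ (by norm_num)
      exact hmono.pairwise_disjoint_on_Ioc_succ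
    intro i j hij
    have : Disjoint _ _ := h1 hij
    rw [Set.disjoint_left] at this ⊢
    exact fun x hx hx' => this hx hx'
  have hAu : ⋃ k, A k = {x | w x ≠ 0} := by
    ext x
    simp only [mem_iUnion, hA, mem_ofPred_eq]
    constructor
    · rintro ⟨k, hk⟩ h0
      rw [h0, abs_zero] at hk
      exact absurd hk.1 (not_lt.2 (by positivity))
    · intro h0
      exact exists_mem_Ioc_zpow (abs_pos.2 h0) (by norm_num)
  set d : ℤ → ℝ≥0∞ := fun k => ∫⁻ x in A k, ‖fderiv ℝ w x‖ₑ ^ 2 with hd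
  have hDc : Continuous (fderiv ℝ w) := hwc.continuous_fderiv (by simp)
  have hDfin : ∫⁻ x, ‖fderiv ℝ w x‖ₑ ^ 2 < ⊤ := by
    have hi : Integrable (fun x => ‖fderiv ℝ w x‖ ^ 2) := by
      refine Continuous.integrable_of_hasCompactSupport (by fun_prop) ?_
      exact (hcs.fderiv ℝ).comp_left (g := fun y => ‖y‖ ^ 2) (by simp)
    have h2 := hi.lintegral_lt_top
    refine lt_of_le_of_lt (le_of_eq (lintegral_congr fun x => ?_)) h2
    rw [← ofReal_norm, ENNReal.ofReal_pow (norm_nonneg _)]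
  have hdsum : ∑' k, d k ≤ ∫⁻ x, ‖fderiv ℝ w x‖ₑ ^ 2 := by
    rw [hd, ← lintegral_iUnion hAm hAd]
    exact setLIntegral_le_lintegral _ _
  have hdfin : ∀ k, d k < ⊤ := fun k =>
    lt_of_le_of_lt (setLIntegral_le_lintegral _ _) hDfin
  -- the truncated functions
  have htr : ∀ k : ℤ, volume (A k) ≤
      ENNReal.ofReal ((S * L ^ 2 * ((4 : ℝ) ^ k)⁻¹ * (d (k - 1)).toReal) ^ 3) := by
    intro k
    set wk : E → ℝ := fun x => Th (w x * ((2 : ℝ) ^ k)⁻¹) with hwk
    have hwk1 : ContDiff ℝ ∞ wk := Th_contDiff.comp (hwc.mul contDiff_const)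
    have hwk2 : HasCompactSupport wk := by
      refine hcs.comp_left (g := fun s => Th (s * ((2 : ℝ) ^ k)⁻¹)) ?_
      rw [zero_mul]
      exact Th_zero (by norm_num)
    have h1 : volume (A k) ≤ ∫⁻ x, ‖wk x‖ₑ ^ 6 := by
      calc volume (A k) = ∫⁻ x in A k, 1 := by simp
        _ ≤ ∫⁻ x in A k, ‖wk x‖ₑ ^ 6 := by
          refine lintegral_mono_ae ?_
          filter_upwards [ae_restrict_mem (hAm k)] with x hx
          have : wk x = 1 := by
            simp only [hwk]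
            refine Th_one ?_
            rw [abs_mul, abs_inv, abs_of_pos (by positivity : (0 : ℝ) < 2 ^ k),
              ← div_eq_mul_inv, one_le_div (by positivity)]
            exact hx.1.le
          rw [this]
          simp
        _ ≤ _ := setLIntegral_le_lintegral _ _
    have h2 : ∫⁻ x, ‖fderiv ℝ wk x‖ₑ ^ 2 ≤ ENNReal.ofReal (L ^ 2 * ((4 : ℝ) ^ k)⁻¹) * d (k - 1) := by
      have hder : ∀ x, fderiv ℝ wk x
          = (deriv Th (w x * ((2 : ℝ) ^ k)⁻¹) * ((2 : ℝ) ^ k)⁻¹) • fderiv ℝ w x := by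
        intro x
        have hx := (hwc.differentiable (by simp) x).hasFDerivAt
        have h3 := (hx.mul_const (((2 : ℝ) ^ k)⁻¹))
        have h4 := (Th_contDiff.differentiable (by simp) (w x * ((2 : ℝ) ^ k)⁻¹)).hasDerivAt
        have h5 := h4.comp_hasFDerivAt x h3
        have h6 : fderiv ℝ (Th ∘ fun y => w y * ((2 : ℝ) ^ k)⁻¹) x = _ := h5.fderiv
        rw [smul_smul] at h6
        exact h6
      have hsupp : ∀ x ∉ A (k - 1), fderiv ℝ wk x = 0 := by
        intro x hx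
        rw [hder x, Th_deriv_zero, zero_mul, zero_smul]
        intro hc
        apply hx
        rw [abs_mul, abs_inv, abs_of_pos (by positivity : (0 : ℝ) < 2 ^ k),
          ← div_eq_mul_inv, lt_div_iff₀ (by positivity), div_le_one (by positivity)] at hc
        refine ⟨?_, ?_⟩
        · rw [zpow_sub_one₀ (by norm_num)]
          linarith [hc.1]
        · rw [sub_add_cancel]
          exact hc.2
      have e1 : ∫⁻ x, ‖fderiv ℝ wk x‖ₑ ^ 2 = ∫⁻ x in A (k - 1), ‖fderiv ℝ wk x‖ₑ ^ 2 := by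
        rw [← lintegral_add_compl _ (hAm (k - 1))]
        have : ∫⁻ x in (A (k - 1))ᶜ, ‖fderiv ℝ wk x‖ₑ ^ 2 = 0 := by
          rw [setLIntegral_congr_fun (g := fun _ => 0) (hAm (k - 1)).compl (fun x hx => by
            simp only []
            rw [← ofReal_norm, hsupp x hx, norm_zero, ENNReal.ofReal_zero, zero_pow two_ne_zero])]
          simp
        rw [this, add_zero]
      rw [e1, hd, ← lintegral_const_mul _ (by fun_prop)]
      refine lintegral_mono fun x => ?_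
      have e4 : ((4 : ℝ) ^ k)⁻¹ = (((2 : ℝ) ^ k)⁻¹) ^ 2 := by
        rw [four_zpow, inv_pow]
      have h6 : ‖fderiv ℝ wk x‖ ^ 2 ≤ L ^ 2 * ((4 : ℝ) ^ k)⁻¹ * ‖fderiv ℝ w x‖ ^ 2 := by
        rw [hder x, norm_smul, mul_pow, norm_mul, mul_pow, e4, Real.norm_eq_abs, Real.norm_eq_abs,
          abs_of_pos (by positivity : (0 : ℝ) < ((2 : ℝ) ^ k)⁻¹)]
        have := hL (w x * ((2 : ℝ) ^ k)⁻¹)
        gcongr
      calc ‖fderiv ℝ wk x‖ₑ ^ 2 = ENNReal.ofReal (‖fderiv ℝ wk x‖ ^ 2) := by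
            rw [ENNReal.ofReal_pow (norm_nonneg _), ofReal_norm]
        _ ≤ ENNReal.ofReal (L ^ 2 * ((4 : ℝ) ^ k)⁻¹ * ‖fderiv ℝ w x‖ ^ 2) := ENNReal.ofReal_le_ofReal h6
        _ = _ := by
            rw [ENNReal.ofReal_mul (by positivity), ENNReal.ofReal_pow (norm_nonneg _),
              ofReal_norm]
    calc volume (A k) ≤ (S * ∫⁻ x, ‖fderiv ℝ wk x‖ₑ ^ 2) ^ 3 :=
          h1.trans (hS wk (hwk1.of_le (by simp)) hwk2)
      _ ≤ (S * (ENNReal.ofReal (L ^ 2 * ((4 : ℝ) ^ k)⁻¹) * d (k - 1))) ^ 3 := by gcongr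
      _ = _ := by
          rw [ENNReal.ofReal_pow (by positivity)]
          congr 1
          have e5 : ENNReal.ofReal (S * L ^ 2 * ((4 : ℝ) ^ k)⁻¹ * (d (k - 1)).toReal)
              = ENNReal.ofReal (S : ℝ) * (ENNReal.ofReal (L ^ 2 * ((4 : ℝ) ^ k)⁻¹)
                * ENNReal.ofReal (d (k - 1)).toReal) := by
            rw [← ENNReal.ofReal_mul (by positivity), ← ENNReal.ofReal_mul (by positivity)]
            congr 1
            ring
          rw [e5, ENNReal.ofReal_coe_nnreal, ENNReal.ofReal_toReal (hdfin _).ne]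
  have hint : ∀ k : ℤ, ∫⁻ x in A k, ENNReal.ofReal (g x ^ 2) * ‖w x‖ₑ ^ 2
      ≤ ENNReal.ofReal (3 * 4 * S * L ^ 2 * κ ^ 2) * d (k - 1) := by
    intro k
    set e : ℝ := S * L ^ 2 * ((4 : ℝ) ^ k)⁻¹ * (d (k - 1)).toReal with he
    have he0 : 0 ≤ e := by positivity
    have h1 : ∫⁻ x in A k, ENNReal.ofReal (g x ^ 2) ≤ ENNReal.ofReal (3 * κ ^ 2 * e) := by
      rcases eq_or_lt_of_le he0 with h | h
      · have h0 : volume (A k) = 0 := by
          have := htr k
          rw [← he, ← h] at this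
          simpa using this
        rw [setLIntegral_measure_zero _ _ h0]
        exact bot_le
      · exact int_sq_le hg hg0 hκ hw h (htr k)
    have h2 : ∀ x ∈ A k, ‖w x‖ₑ ^ 2 ≤ ENNReal.ofReal (4 * (4 : ℝ) ^ k) := by
      intro x hx
      rw [← ofReal_norm, ← ENNReal.ofReal_pow (norm_nonneg _)]
      refine ENNReal.ofReal_le_ofReal ?_
      have h3 : ‖w x‖ ≤ 2 ^ (k + 1) := hx.2
      calc ‖w x‖ ^ 2 ≤ (2 ^ (k + 1)) ^ 2 := by gcongr
        _ = 4 * (4 : ℝ) ^ k := by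
          rw [zpow_add₀ (by norm_num), mul_pow, four_zpow]
          norm_num
          try ring
    calc ∫⁻ x in A k, ENNReal.ofReal (g x ^ 2) * ‖w x‖ₑ ^ 2
        ≤ ∫⁻ x in A k, ENNReal.ofReal (g x ^ 2) * ENNReal.ofReal (4 * (4 : ℝ) ^ k) := by
          refine lintegral_mono_ae ?_
          filter_upwards [ae_restrict_mem (hAm k)] with x hx
          gcongr
          exact h2 x hx
      _ = (∫⁻ x in A k, ENNReal.ofReal (g x ^ 2)) * ENNReal.ofReal (4 * (4 : ℝ) ^ k) := by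
          rw [lintegral_mul_const _ (by fun_prop)]
      _ ≤ ENNReal.ofReal (3 * κ ^ 2 * e) * ENNReal.ofReal (4 * (4 : ℝ) ^ k) := by gcongr
      _ = _ := by
          rw [← ENNReal.ofReal_mul (by positivity), he,
            ← ENNReal.ofReal_toReal (hdfin (k - 1)).ne, ← ENNReal.ofReal_mul (by positivity),
            ENNReal.toReal_ofReal ENNReal.toReal_nonneg]
          congr 1
          field_simp
          try ring
  calc ∫⁻ x, ENNReal.ofReal (g x ^ 2) * ‖w x‖ₑ ^ 2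
      = ∫⁻ x in ⋃ k, A k, ENNReal.ofReal (g x ^ 2) * ‖w x‖ₑ ^ 2 := by
        have hm : MeasurableSet (⋃ k, A k) := MeasurableSet.iUnion hAm
        rw [← lintegral_add_compl _ hm]
        have : ∫⁻ x in (⋃ k, A k)ᶜ, ENNReal.ofReal (g x ^ 2) * ‖w x‖ₑ ^ 2 = 0 := by
          rw [setLIntegral_congr_fun (g := fun _ => 0) hm.compl (fun x hx => by
            rw [hAu] at hx
            simp only [mem_compl_iff, mem_ofPred_eq, not_not] at hx
            simp [hx])]
          simp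
        rw [this, add_zero]
    _ = ∑' k, ∫⁻ x in A k, ENNReal.ofReal (g x ^ 2) * ‖w x‖ₑ ^ 2 := lintegral_iUnion hAm hAd _
    _ ≤ ∑' k, ENNReal.ofReal (3 * 4 * S * L ^ 2 * κ ^ 2) * d (k - 1) := ENNReal.tsum_le_tsum hint
    _ = ENNReal.ofReal (3 * 4 * S * L ^ 2 * κ ^ 2) * ∑' k, d k := by
        rw [ENNReal.tsum_mul_left]
        congr 1
        exact (Equiv.subRight (1 : ℤ)).tsum_eq d
    _ ≤ ENNReal.ofReal ((3 * 4 * S * L ^ 2 + 1) * κ ^ 2) * ∫⁻ x, ‖fderiv ℝ w x‖ₑ ^ 2 := by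
        gcongr
        nlinarith [sq_nonneg κ]

end Q85.CR
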